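import Pool.Agent.T6.H62.UB.Red

/-!
# The bounds for rational preperiodic points
-/

set_option autoImplicit false

namespace Pool.Agent.T6.H62.UB

open Finset Real

theorem splitPart_pos (d V : ℕ) : 0 < splitPart d V :=
  prod_pos fun _ hp => pow_pos (Nat.prime_of_mem_primeFactors (mem_filter.1 hp).1).pos _

theorem nonsplitPart_pos (d V : ℕ) : 0 < nonsplitPart d V :=
  prod_pos fun _ hp => pow_pos (Nat.prime_of_mem_primeFactors (mem_filter.1 hp).1).pos _

theorem log_max_one {X : ℝ} (hX : 0 ≤ X) : log (max 1 X) = max 0 (log X) := by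
  rcases le_total 1 X with h | h
  · rw [max_eq_right h, max_eq_right (log_nonneg h)]
  · rw [max_eq_left h, log_one]
    rcases hX.eq_or_lt with h0 | h0
    · rw [← h0, log_zero]; simp
    · rw [max_eq_left (log_nonpos h0.le h)]

/-- The bound for the maps `(A x ^ d + B) / V`, for a given constant of `core_bound`. -/
theorem bound_ABV_aux {d : ℕ} (hd : 4 ≤ d) {C : ℝ}
    (hbound : ∀ (A B : ℤ) (V : ℕ) (O : Finset ℤ) (φ : ℤ → ℤ), Sys d A B V O φ → A ≠ 0 → 0 < V →
      ∀ M : ℝ, 1 ≤ M → LL V (sp d V) ≤ M * Sys.Gam d A B V →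
        (O.card : ℝ) ≤ C * (M * log (M + 1)))
    (A B : ℤ) (V : ℕ) (hA : A ≠ 0) (hV : 0 < V) (hAV : IsCoprime A (V : ℤ))
    (hBV : IsCoprime B (V : ℤ)) (hA' : ∀ p : ℕ, p.Prime → ¬ (p : ℤ) ^ (d - 1) ∣ A) {M : ℝ}
    (hM : 1 ≤ M) (hsp : (splitPart d V : ℝ) ≤ (|(A : ℝ)| * nonsplitPart d V *
      largestPrimePower V * max 1 (|(A : ℝ)| * |(B : ℝ)| ^ (d - 1) / (V : ℝ) ^ d)) ^ M)
    (T : Finset ℚ) (hT : ∀ x ∈ T, IsPreperiodic (fun x : ℚ => (A * x ^ d + B) / V) x) :
    (T.card : ℝ) ≤ C * (M * log (M + 1)) := by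
  obtain ⟨O, φ, hsys, -, hcard, -⟩ := exists_sys (by omega) hA hV hAV hBV hA' T hT
  have h1 : (T.card : ℝ) ≤ O.card := by exact_mod_cast hcard
  refine h1.trans (hbound A B V O φ hsys hA hV M hM ?_)
  have hX : (0 : ℝ) ≤ |(A : ℝ)| * |(B : ℝ)| ^ (d - 1) / (V : ℝ) ^ d := by positivity
  have hA1 : 0 < |(A : ℝ)| := abs_pos.2 (by exact_mod_cast hA)
  have hs0 : (0 : ℝ) < splitPart d V := by exact_mod_cast splitPart_pos d V
  have hn0 : (0 : ℝ) < nonsplitPart d V := by exact_mod_cast nonsplitPart_pos d V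
  have hl0 : (0 : ℝ) < largestPrimePower V := by exact_mod_cast one_le_lpp V
  have hm0 : (0 : ℝ) < max 1 (|(A : ℝ)| * |(B : ℝ)| ^ (d - 1) / (V : ℝ) ^ d) :=
    lt_max_of_lt_left one_pos
  have h2 := log_le_log hs0 hsp
  rw [log_rpow (by positivity), log_mul (by positivity) hm0.ne', log_mul (by positivity) hl0.ne',
    log_mul hA1.ne' hn0.ne', log_splitPart, log_nonsplitPart, log_max_one hX] at h2
  exact h2

theorem LL_pow (v k : ℕ) (S : Finset ℕ) : LL (v ^ k) S = k * LL v S := by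
  unfold LL
  rw [mul_sum]
  refine sum_congr rfl fun p _ => ?_
  rw [Nat.factorization_pow]
  simp only [Finsupp.coe_smul, Pi.smul_apply, smul_eq_mul, Nat.cast_mul]
  ring

theorem sp_pow (d v : ℕ) {k : ℕ} (hk : k ≠ 0) : sp d (v ^ k) = sp d v := by
  unfold sp; rw [Nat.primeFactors_pow _ hk]

theorem ns_pow (d v : ℕ) {k : ℕ} (hk : k ≠ 0) : ns d (v ^ k) = ns d v := by
  unfold ns; rw [Nat.primeFactors_pow _ hk]

theorem lpp_pow (v : ℕ) {k : ℕ} (hk : k ≠ 0) :
    largestPrimePower (v ^ k) = largestPrimePower v ^ k := by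
  have hf : ∀ p, p ^ (v ^ k).factorization p = (p ^ v.factorization p) ^ k := by
    intro p
    rw [Nat.factorization_pow, ← pow_mul]
    simp [mul_comm]
  apply le_antisymm
  · apply max_le
    · exact Nat.one_le_pow _ _ (one_le_lpp v)
    · apply Finset.sup_le
      intro p hp
      rw [hf]
      rw [Nat.primeFactors_pow _ hk] at hp
      exact Nat.pow_le_pow_left (le_lpp hp) k
  · unfold largestPrimePower
    rcases v.primeFactors.eq_empty_or_nonempty with he | he
    · rw [he]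
      simp
    · obtain ⟨p, hp, hmax⟩ := exists_max_image v.primeFactors (fun p => p ^ v.factorization p) he
      have h1 : max 1 (v.primeFactors.sup fun p => p ^ v.factorization p)
          = p ^ v.factorization p := by
        apply le_antisymm
        · apply max_le
          · exact Nat.one_le_pow _ _ (Nat.prime_of_mem_primeFactors hp).pos
          · exact Finset.sup_le hmax
        · exact (le_sup (f := fun p => p ^ v.factorization p) hp).trans (le_max_right _ _)
      rw [h1, ← hf]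
      refine le_trans ?_ (le_max_right _ _)
      apply le_sup (f := fun p => p ^ (v ^ k).factorization p)
      rwa [Nat.primeFactors_pow _ hk]

/-- The bound for `x ^ d + c`, for a given constant of `core_bound`. -/
theorem bound_c_aux {d : ℕ} (hd : 4 ≤ d) {C : ℝ} (hC : 0 < C)
    (hbound : ∀ (A B : ℤ) (V : ℕ) (O : Finset ℤ) (φ : ℤ → ℤ), Sys d A B V O φ → A ≠ 0 → 0 < V →
      ∀ M : ℝ, 1 ≤ M → LL V (sp d V) ≤ M * Sys.Gam d A B V →
        (O.card : ℝ) ≤ C * (M * log (M + 1))) (c : ℚ) {M : ℝ} (hM : 1 ≤ M)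
    (hsp : (splitPart d c.den : ℝ) ≤ (nonsplitPart d c.den * largestPrimePower c.den *
        max 1 |(c : ℝ)|) ^ M) (T : Finset ℚ)
    (hT : ∀ x ∈ T, IsPreperiodic (fun x : ℚ => x ^ d + c) x) :
    (T.card : ℝ) ≤ C * (M * log (M + 1)) := by
  rcases T.eq_empty_or_nonempty with he | he
  · rw [he]
    simp only [card_empty, Nat.cast_zero]
    have : 0 ≤ log (M + 1) := log_nonneg (by linarith)
    positivity
  obtain ⟨v, b, O, φ, hv, hden, hnum, hsys, hcard, -⟩ := exists_sys_c (by omega) T he hT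
  have h1 : (T.card : ℝ) ≤ O.card := by exact_mod_cast hcard
  refine h1.trans (hbound 1 b (v ^ (d - 1)) O φ hsys one_ne_zero (by positivity) M hM ?_)
  have hd1 : d - 1 ≠ 0 := by omega
  have hd0 : d ≠ 0 := by omega
  have hs0 : (0 : ℝ) < splitPart d c.den := by exact_mod_cast splitPart_pos d _
  have hn0 : (0 : ℝ) < nonsplitPart d c.den := by exact_mod_cast nonsplitPart_pos d _
  have hl0 : (0 : ℝ) < largestPrimePower c.den := by exact_mod_cast one_le_lpp _
  have hm0 : (0 : ℝ) < max 1 |(c : ℝ)| := lt_max_of_lt_left one_pos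
  have h2 := log_le_log hs0 hsp
  rw [log_rpow (by positivity), log_mul (by positivity) hm0.ne', log_mul (by positivity) hl0.ne',
    log_splitPart, log_nonsplitPart, log_max_one (abs_nonneg _), hden, LL_pow, LL_pow,
    sp_pow _ _ hd0, ns_pow _ _ hd0, lpp_pow _ hd0] at h2
  push_cast at h2
  rw [log_pow] at h2
  have hvR : (0 : ℝ) < v := by exact_mod_cast hv
  have hX : Sys.XX d 1 b (v ^ (d - 1)) = |(c : ℝ)| ^ (d - 1) := by
    unfold Sys.XX
    have hc : (c : ℝ) = (b : ℝ) / (v : ℝ) ^ d := by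
      have h3 : (c : ℝ) = (c.num : ℝ) / (c.den : ℝ) := by
        exact_mod_cast (congrArg (fun q : ℚ => (q : ℝ)) (Rat.num_div_den c)).symm
      rw [h3, hnum, hden]
      push_cast
      rfl
    rw [hc, abs_div, div_pow, abs_of_pos (show (0 : ℝ) < (v : ℝ) ^ d by positivity)]
    push_cast
    rw [abs_one, one_mul]
    congr 1
    rw [← pow_mul, ← pow_mul, mul_comm]
  unfold Sys.Gam
  rw [hX, LL_pow, LL_pow, sp_pow _ _ hd1, ns_pow _ _ hd1, lpp_pow _ hd1, log_pow]
  push_cast
  rw [abs_one, log_one, zero_add, log_pow]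
  have hD : (4 : ℝ) ≤ d := by exact_mod_cast hd
  have hcast : ((d - 1 : ℕ) : ℝ) = (d : ℝ) - 1 := by
    rw [Nat.cast_sub (by omega)]; norm_num
  rw [hcast]
  set s := LL v (sp d v)
  set nn := LL v (ns d v)
  have hnn : 0 ≤ nn := LL_nonneg _ _
  set l := log (largestPrimePower v : ℝ)
  have hl : 0 ≤ l := log_natCast_nonneg _
  have hm : max 0 (((d : ℝ) - 1) * log |(c : ℝ)|) = ((d : ℝ) - 1) * max 0 (log |(c : ℝ)|) := by
    rw [mul_max_of_nonneg _ _ (by linarith), mul_zero]
  rw [hm]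
  set g := max 0 (log |(c : ℝ)|)
  have hg : 0 ≤ g := le_max_left _ _
  have h4 : (d : ℝ) * s ≤ d * (M * (nn + l + g)) := by
    have h5 : M * ((d : ℝ) * nn + d * l + g) ≤ d * (M * (nn + l + g)) := by
      have : 0 ≤ M * g := by positivity
      nlinarith
    linarith
  have h6 : s ≤ M * (nn + l + g) := le_of_mul_le_mul_left h4 (by linarith)
  calc ((d : ℝ) - 1) * s ≤ ((d : ℝ) - 1) * (M * (nn + l + g)) :=
        mul_le_mul_of_nonneg_left h6 (by linarith)
    _ = _ := by ring

theorem splitPart_le (d V : ℕ) :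
    splitPart d V ≤ largestPrimePower V ^ (V.primeFactors.filter (· ≡ 1 [MOD d])).card := by
  unfold splitPart
  calc _ ≤ ∏ _p ∈ V.primeFactors.filter (· ≡ 1 [MOD d]), largestPrimePower V :=
        prod_le_prod' fun p hp => le_lpp (mem_filter.1 hp).1
    _ = _ := by rw [prod_const]

/-- The bound by the number of split primes. -/
theorem bound_s_aux {d : ℕ} (hd : 4 ≤ d) {C : ℝ} (hC : 0 < C)
    (hbound : ∀ (A B : ℤ) (V : ℕ) (O : Finset ℤ) (φ : ℤ → ℤ), Sys d A B V O φ → A ≠ 0 → 0 < V →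
      ∀ M : ℝ, 1 ≤ M → LL V (sp d V) ≤ M * Sys.Gam d A B V →
        (O.card : ℝ) ≤ C * (M * log (M + 1))) (c : ℚ) (T : Finset ℚ)
    (hT : ∀ x ∈ T, IsPreperiodic (fun x : ℚ => x ^ d + c) x) :
    (T.card : ℝ) ≤ C * (((c.den.primeFactors.filter (· ≡ 1 [MOD d])).card + 1) *
      log ((c.den.primeFactors.filter (· ≡ 1 [MOD d])).card + 2)) := by
  set s := (c.den.primeFactors.filter (· ≡ 1 [MOD d])).card with hs
  have h := bound_c_aux hd hC hbound c (M := (s : ℝ) + 1) (by
    have : (0 : ℝ) ≤ s := Nat.cast_nonneg _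
    linarith) ?_ T hT
  · rw [show (s : ℝ) + 1 + 1 = s + 2 by ring] at h
    exact h
  · have h1 : (splitPart d c.den : ℝ) ≤ (largestPrimePower c.den : ℝ) ^ (s : ℝ) := by
      rw [rpow_natCast]
      exact_mod_cast splitPart_le d c.den
    have hl1 : (1 : ℝ) ≤ largestPrimePower c.den := by exact_mod_cast one_le_lpp _
    have hn1 : (1 : ℝ) ≤ nonsplitPart d c.den := by exact_mod_cast nonsplitPart_pos d _
    have hm1 : (1 : ℝ) ≤ max 1 |(c : ℝ)| := le_max_left _ _
    refine h1.trans ?_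
    have h2 : (largestPrimePower c.den : ℝ) ≤
        nonsplitPart d c.den * largestPrimePower c.den * max 1 |(c : ℝ)| := by
      have h3 : (largestPrimePower c.den : ℝ) ≤ nonsplitPart d c.den * largestPrimePower c.den := by
        nlinarith
      have h4 : (0 : ℝ) ≤ nonsplitPart d c.den * largestPrimePower c.den := by positivity
      nlinarith
    calc (largestPrimePower c.den : ℝ) ^ (s : ℝ)
        ≤ (nonsplitPart d c.den * largestPrimePower c.den * max 1 |(c : ℝ)|) ^ (s : ℝ) :=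
          rpow_le_rpow (by positivity) h2 (Nat.cast_nonneg _)
      _ ≤ (nonsplitPart d c.den * largestPrimePower c.den * max 1 |(c : ℝ)|) ^ ((s : ℝ) + 1) := by
          apply rpow_le_rpow_of_exponent_le (hl1.trans h2)
          linarith

end Pool.Agent.T6.H62.UB
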