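import Pool.Agent.T6.H62.UB.Core

/-!
# The bound for finite invariant sets of integers
-/

set_option autoImplicit false

namespace Pool.Agent.T6.H62.UB

open Finset Real

/-- The part of `V` made of the primes `p ≡ 1` modulo `d`. -/
def splitPart (d V : ℕ) : ℕ :=
  ∏ p ∈ V.primeFactors with p ≡ 1 [MOD d], p ^ V.factorization p

/-- The part of `V` made of the other primes. -/
def nonsplitPart (d V : ℕ) : ℕ :=
  ∏ p ∈ V.primeFactors with ¬ p ≡ 1 [MOD d], p ^ V.factorization p

/-- The largest prime power that divides `V` (`1` if `V = 1`). -/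
def largestPrimePower (V : ℕ) : ℕ :=
  max 1 (V.primeFactors.sup fun p => p ^ V.factorization p)

theorem one_le_lpp (V : ℕ) : 1 ≤ largestPrimePower V := le_max_left _ _

theorem le_lpp {V p : ℕ} (hp : p ∈ V.primeFactors) :
    p ^ V.factorization p ≤ largestPrimePower V :=
  (le_sup (f := fun p => p ^ V.factorization p) hp).trans (le_max_right _ _)

theorem modEq_iff {d p : ℕ} (hp : p.Prime) : p ≡ 1 [MOD d] ↔ d ∣ p - 1 := by
  rw [Nat.ModEq.comm, Nat.modEq_iff_dvd' hp.one_le]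

theorem log_prod_eq (V : ℕ) (S : Finset ℕ) (hS : ∀ p ∈ S, p.Prime) :
    log ((∏ p ∈ S, p ^ V.factorization p : ℕ) : ℝ) = LL V S := by
  unfold LL
  push_cast
  rw [log_prod]
  · simp [log_pow]
  · intro p hp
    have := (hS p hp).pos
    positivity

theorem log_splitPart (d V : ℕ) : log (splitPart d V) = LL V (sp d V) := by
  unfold splitPart
  rw [log_prod_eq]
  · congr 1
    unfold sp
    apply filter_congr
    intro p hp
    exact modEq_iff (Nat.prime_of_mem_primeFactors hp)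
  · intro p hp
    exact Nat.prime_of_mem_primeFactors (mem_filter.1 hp).1

theorem log_nonsplitPart (d V : ℕ) : log (nonsplitPart d V) = LL V (ns d V) := by
  unfold nonsplitPart
  rw [log_prod_eq]
  · congr 1
    unfold ns
    apply filter_congr
    intro p hp
    rw [modEq_iff (Nat.prime_of_mem_primeFactors hp)]
  · intro p hp
    exact Nat.prime_of_mem_primeFactors (mem_filter.1 hp).1

theorem V_le (V : ℕ) (hV : V ≠ 0) : V ≤ largestPrimePower V ^ largestPrimePower V := by
  conv_lhs => rw [← Nat.prod_factorization_pow_eq_self hV]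
  rw [Finsupp.prod, Nat.support_factorization]
  have h1 : V.primeFactors ⊆ Icc 1 (largestPrimePower V) := by
    intro p hp
    rw [mem_Icc]
    have hpp := Nat.prime_of_mem_primeFactors hp
    refine ⟨hpp.one_le, le_trans ?_ (le_lpp hp)⟩
    apply Nat.le_self_pow
    exact (hpp.factorization_pos_of_dvd hV (Nat.dvd_of_mem_primeFactors hp)).ne'
  calc ∏ p ∈ V.primeFactors, p ^ V.factorization p
      ≤ ∏ _p ∈ V.primeFactors, largestPrimePower V := prod_le_prod' fun p hp => le_lpp hp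
    _ = largestPrimePower V ^ V.primeFactors.card := by rw [prod_const]
    _ ≤ largestPrimePower V ^ largestPrimePower V := by
        apply Nat.pow_le_pow_right (one_le_lpp V)
        have := card_le_card h1
        rwa [Nat.card_Icc, Nat.add_sub_cancel] at this

namespace Sys

variable {d : ℕ} {A B : ℤ} {V : ℕ} {O : Finset ℤ} {φ : ℤ → ℤ}

/-- The total of what helps. -/
noncomputable def Gam (d : ℕ) (A B : ℤ) (V : ℕ) : ℝ :=
  log |(A : ℝ)| + LL V (ns d V) + log (largestPrimePower V) + max 0 (log (XX d A B V))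

/-- The choice of a dominating prime. -/
theorem exists_p1 (h : Sys d A B V O φ) (hd : 4 ≤ d) :
    ∃ p1 q1 : ℕ, (p1 ∈ V.primeFactors → q1 = qm p1) ∧
      (O.image (fun u : ℤ => (u : ZMod q1))).card ≤ d ∧
      LL V (V.primeFactors.filter (· = p1)) = log (largestPrimePower V) := by
  rcases V.primeFactors.eq_empty_or_nonempty with he | he
  · refine ⟨0, 1, by simp [he], ?_, ?_⟩
    · have h1 : (O.image (fun u : ℤ => (u : ZMod 1))).card ≤ Fintype.card (ZMod 1) :=
        card_le_univ _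
      rw [ZMod.card] at h1
      omega
    · unfold largestPrimePower LL
      simp [he]
  · obtain ⟨p1, hp1, hmax⟩ := exists_max_image V.primeFactors
      (fun p => p ^ V.factorization p) he
    have hp := Nat.prime_of_mem_primeFactors hp1
    have hpV := Nat.dvd_of_mem_primeFactors hp1
    refine ⟨p1, qm p1, fun _ => rfl, ?_, ?_⟩
    · exact card_image_any hp hd (h.not_dvd_B hp hpV) O (fun u hu => h.dvd_eqn hpV hu)
    · have e1 : largestPrimePower V = p1 ^ V.factorization p1 := by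
        apply le_antisymm
        · apply max_le
          · exact Nat.one_le_pow _ _ hp.pos
          · exact Finset.sup_le hmax
        · exact le_lpp hp1
      rw [e1]
      push_cast
      rw [log_pow]
      unfold LL
      rw [sum_filter, sum_ite_eq' V.primeFactors p1]
      simp [hp1]

/-- the constant `C2` -/
noncomputable def C2 (d : ℕ) : ℝ := C1 d + ((d : ℝ) - 1) * log d

theorem C2_nonneg {d : ℕ} (hd : 4 ≤ d) : 0 ≤ C2 d := by
  have hd' : (4 : ℝ) ≤ d := by exact_mod_cast hd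
  unfold C2 C1
  have h1 : 0 ≤ log (2 : ℝ) := log_nonneg (by norm_num)
  have h2 : 0 ≤ log (3 * 2 ^ (d - 1) : ℝ) := by
    apply log_nonneg
    have : (1 : ℝ) ≤ 2 ^ (d - 1) := one_le_pow₀ (by norm_num)
    linarith
  have h3 : 0 ≤ log (d : ℝ) := log_natCast_nonneg d
  have h4 : 0 ≤ ((d : ℝ) - 1) * log d := mul_nonneg (by linarith) h3
  positivity

/-- Many points give a bound for `Gam`. -/
theorem gam_le (h : Sys d A B V O φ) (hd : 4 ≤ d) (hde : Even d) (hA : A ≠ 0) (hV : 0 < V)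
    {M : ℝ} (hM : 1 ≤ M) (hsp : LL V (sp d V) ≤ M * Gam d A B V) {n k : ℕ}
    (hn : 16 * M ≤ (d : ℝ) ^ n) (hk1 : 4 * ((d : ℝ) - 1) ≤ k)
    (hk2 : 16 * M * n * ((d : ℝ) - 1) ≤ k) (hO : 3 * d * k < O.card) :
    Gam d A B V ≤ 8 * C2 d := by
  classical
  have hd' : (4 : ℝ) ≤ d := by exact_mod_cast hd
  obtain ⟨p1, q1, hq, hcard, hLL⟩ := h.exists_p1 hd
  have hmaps : ∀ u ∈ O, ((fun u : ℤ => (SignType.sign u, (u : ZMod q1))) u) ∈
      (univ : Finset SignType) ×ˢ (O.image (fun u : ℤ => (u : ZMod q1))) := by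
    intro u hu
    simp only [mem_product, mem_univ, true_and]
    exact mem_image_of_mem _ hu
  have hcard2 : ((univ : Finset SignType) ×ˢ (O.image (fun u : ℤ => (u : ZMod q1)))).card * k
      < O.card := by
    rw [card_product]
    have h3 : (univ : Finset SignType).card = 3 := by decide
    rw [h3]
    calc 3 * (O.image (fun u : ℤ => (u : ZMod q1))).card * k ≤ 3 * d * k := by
          apply Nat.mul_le_mul_right
          exact Nat.mul_le_mul_left _ hcard
      _ < O.card := hO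
  obtain ⟨y, _, hy⟩ := exists_lt_card_fiber_of_mul_lt_card_of_maps_to hmaps hcard2
  set T := O.filter (fun u : ℤ => (SignType.sign u, (u : ZMod q1)) = y) with hTdef
  have hkpos : 1 ≤ k := by
    have : (0 : ℝ) < k := by nlinarith
    exact_mod_cast this
  have hTO : T ⊆ O := filter_subset _ _
  have hTy : ∀ u ∈ T, (SignType.sign u, (u : ZMod q1)) = y := fun u hu => (mem_filter.1 hu).2
  have hsign : ∀ u ∈ T, ∀ w ∈ T, u ≠ w → 0 < u * w := by
    intro u hu w hw hne
    have h1 := congrArg Prod.fst ((hTy u hu).trans (hTy w hw).symm)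
    simp only at h1
    rcases lt_trichotomy u 0 with h2 | h2 | h2
    · rw [sign_neg h2, eq_comm, sign_eq_neg_one_iff] at h1
      exact mul_pos_of_neg_of_neg h2 h1
    · rw [h2, _root_.sign_zero, eq_comm, _root_.sign_eq_zero_iff] at h1
      exact absurd (h2.trans h1.symm) hne
    · rw [sign_pos h2, eq_comm, sign_eq_one_iff] at h1
      exact mul_pos h2 h1
  have hcls : p1 ∈ V.primeFactors → ∀ u ∈ T, ∀ w ∈ T,
      (u : ZMod (qm p1)) = (w : ZMod (qm p1)) := by
    intro hp u hu w hw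
    have h1 := congrArg Prod.snd ((hTy u hu).trans (hTy w hw).symm)
    simp only at h1
    rw [← hq hp]
    exact h1
  have hTk : (k : ℝ) ≤ (T.card : ℝ) - 1 := by
    have : k + 1 ≤ T.card := hy
    have : ((k + 1 : ℕ) : ℝ) ≤ T.card := by exact_mod_cast this
    push_cast at this
    linarith
  have hmain := h.main_ineq hd hde hA hV hTO hsign p1 hcls n (hk1.trans hTk)
  rw [hLL] at hmain
  have hC2 : C1 d + ((d : ℝ) - 1) * log d = C2 d := rfl
  rw [hC2] at hmain
  have hM0 : 0 < M := by linarith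
  have hlogA : 0 ≤ log |(A : ℝ)| := by
    apply log_nonneg
    have : (1 : ℤ) ≤ |A| := Int.one_le_abs hA
    exact_mod_cast this
  have hLns := LL_nonneg V (ns d V)
  have hLsp := LL_nonneg V (sp d V)
  have hlpp : 0 ≤ log (largestPrimePower V : ℝ) := log_natCast_nonneg _
  have hX : 0 ≤ max 0 (log (XX d A B V)) := le_max_left _ _
  have hGam : 0 ≤ Gam d A B V := by unfold Gam; positivity
  have hfrac : (1 / 2 : ℝ) ≤ ((d : ℝ) - 2) / d := by
    rw [le_div_iff₀ (by linarith)]; linarith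
  have hη : 1 / (d : ℝ) ^ n + n * (d - 1) / ((T.card : ℝ) - 1) ≤ 1 / (8 * M) := by
    have h1 : 1 / (d : ℝ) ^ n ≤ 1 / (16 * M) := one_div_le_one_div_of_le (by positivity) hn
    have h2 : (n : ℝ) * (d - 1) / ((T.card : ℝ) - 1) ≤ 1 / (16 * M) := by
      have hpos : 0 < (T.card : ℝ) - 1 := by nlinarith
      rw [div_le_div_iff₀ hpos (by positivity)]
      nlinarith
    have h3 : 1 / (16 * M) + 1 / (16 * M) = 1 / (8 * M) := by field_simp; norm_num
    linarith
  have h5 : (1 / (d : ℝ) ^ n + n * (d - 1) / ((T.card : ℝ) - 1)) * LL V (sp d V)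
      ≤ Gam d A B V / 8 := by
    calc _ ≤ 1 / (8 * M) * LL V (sp d V) := mul_le_mul_of_nonneg_right hη hLsp
      _ ≤ 1 / (8 * M) * (M * Gam d A B V) := mul_le_mul_of_nonneg_left hsp (by positivity)
      _ = Gam d A B V / 8 := by field_simp
  have h6 : Gam d A B V / 4 ≤ log |(A : ℝ)| + (((d : ℝ) - 2) / d) * max 0 (log (XX d A B V))
      + (1 / 4) * LL V (ns d V) + log (largestPrimePower V) := by
    have := mul_le_mul_of_nonneg_right hfrac hX
    unfold Gam
    linarith
  linarith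

/-- The points are bounded by `V + |B|`. -/
theorem abs_le (h : Sys d A B V O φ) (hd : 4 ≤ d) (hde : Even d) (hA : A ≠ 0) (hV : 0 < V)
    {u : ℤ} (hu : u ∈ O) : |u| ≤ V + |B| := by
  obtain ⟨u0, hu0, hmax⟩ := exists_max_image O (fun u => |u|) ⟨u, hu⟩
  refine (hmax u hu).trans ?_
  by_contra hcon
  push Not at hcon
  have h1 := (h.abs_bounds hde hmax hu0).1
  have h2 : (1 : ℝ) ≤ |(A : ℝ)| := by exact_mod_cast Int.one_le_abs hA
  have h3 : ((V : ℝ) + |(B : ℝ)|) < |(u0 : ℝ)| := by exact_mod_cast hcon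
  have hV1 : (1 : ℝ) ≤ V := by exact_mod_cast hV
  have hB := abs_nonneg (B : ℝ)
  have h4 : (1 : ℝ) ≤ |(u0 : ℝ)| := by linarith
  have h5 : |(u0 : ℝ)| ^ 2 ≤ |(u0 : ℝ)| ^ d := pow_le_pow_right₀ h4 (by omega)
  have h6 : |(u0 : ℝ)| ^ d ≤ |(A : ℝ)| * |(u0 : ℝ)| ^ d := by
    have : 0 ≤ |(u0 : ℝ)| ^ d := by positivity
    nlinarith
  nlinarith

/-- The bounded case. -/
theorem card_le_of_gam (h : Sys d A B V O φ) (hd : 4 ≤ d) (hde : Even d) (hA : A ≠ 0)
    (hV : 0 < V) {K : ℝ} (hG : Gam d A B V ≤ K) :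
    (O.card : ℝ) ≤ 2 * ((⌊exp K⌋₊ ^ ⌊exp K⌋₊ : ℕ) +
      exp K * ((⌊exp K⌋₊ ^ ⌊exp K⌋₊ : ℕ) : ℝ) ^ d) + 1 := by
  have hlogA : 0 ≤ log |(A : ℝ)| := by
    apply log_nonneg
    have : (1 : ℤ) ≤ |A| := Int.one_le_abs hA
    exact_mod_cast this
  have hLns := LL_nonneg V (ns d V)
  have hlpp : 0 ≤ log (largestPrimePower V : ℝ) := log_natCast_nonneg _
  have hX : 0 ≤ max 0 (log (XX d A B V)) := le_max_left _ _
  have h1 : log (largestPrimePower V : ℝ) ≤ K := by
    unfold Gam at hG; linarith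
  have h2 : log (XX d A B V) ≤ K := by
    have := le_max_right 0 (log (XX d A B V))
    unfold Gam at hG; linarith
  have hl0 : (0 : ℝ) < largestPrimePower V := by exact_mod_cast one_le_lpp V
  have h3 : (largestPrimePower V : ℝ) ≤ exp K := by
    rw [← log_le_iff_le_exp hl0]; exact h1
  have h4 : largestPrimePower V ≤ ⌊exp K⌋₊ := Nat.le_floor h3
  have h5 : V ≤ ⌊exp K⌋₊ ^ ⌊exp K⌋₊ := by
    refine (V_le V hV.ne').trans ?_
    calc largestPrimePower V ^ largestPrimePower V ≤ ⌊exp K⌋₊ ^ largestPrimePower V :=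
          Nat.pow_le_pow_left h4 _
      _ ≤ ⌊exp K⌋₊ ^ ⌊exp K⌋₊ := Nat.pow_le_pow_right ((one_le_lpp V).trans h4) h4
  set W := ⌊exp K⌋₊ ^ ⌊exp K⌋₊ with hW
  have hV0 : (0 : ℝ) < V := by exact_mod_cast hV
  have h5' : (V : ℝ) ≤ W := by exact_mod_cast h5
  have h2A : (1 : ℝ) ≤ |(A : ℝ)| := by exact_mod_cast Int.one_le_abs hA
  have h6 : |(B : ℝ)| ≤ exp K * (W : ℝ) ^ d := by
    by_cases hB : B = 0
    · subst hB
      simp only [Int.cast_zero, abs_zero]
      positivity
    · have hB1 : (1 : ℝ) ≤ |(B : ℝ)| := by exact_mod_cast Int.one_le_abs hB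
      have hXpos : 0 < XX d A B V := by unfold XX; positivity
      have h7 : XX d A B V ≤ exp K := by
        rw [← log_le_iff_le_exp hXpos]; exact h2
      unfold XX at h7
      rw [div_le_iff₀ (by positivity)] at h7
      have h8 : |(B : ℝ)| ≤ |(B : ℝ)| ^ (d - 1) := le_self_pow₀ hB1 (by omega)
      have h9 : |(B : ℝ)| ^ (d - 1) ≤ |(A : ℝ)| * |(B : ℝ)| ^ (d - 1) := by
        have : 0 ≤ |(B : ℝ)| ^ (d - 1) := by positivity
        nlinarith
      have h10 : (V : ℝ) ^ d ≤ (W : ℝ) ^ d := pow_le_pow_left₀ hV0.le h5' d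
      have h11 := mul_le_mul_of_nonneg_left h10 (exp_pos K).le
      linarith
  have h12 : O ⊆ Icc (-(V + |B|)) (V + |B|) := by
    intro u hu
    rw [mem_Icc]
    exact _root_.abs_le.1 (h.abs_le hd hde hA hV hu)
  have h13 := card_le_card h12
  rw [Int.card_Icc] at h13
  have h14 : ((O.card : ℤ) : ℝ) ≤ ((2 * (V + |B|) + 1 : ℤ) : ℝ) := by
    have : (O.card : ℤ) ≤ 2 * (V + |B|) + 1 := by
      have h15 : 0 ≤ |B| := abs_nonneg B
      omega
    exact_mod_cast this
  push_cast at h14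
  linarith

end Sys

/-- **The bound for finite invariant sets of integers.** -/
theorem core_bound {d : ℕ} (hd : 4 ≤ d) (hde : Even d) : ∃ C : ℝ, 0 < C ∧
    ∀ (A B : ℤ) (V : ℕ) (O : Finset ℤ) (φ : ℤ → ℤ), Sys d A B V O φ → A ≠ 0 → 0 < V →
      ∀ M : ℝ, 1 ≤ M → LL V (sp d V) ≤ M * Sys.Gam d A B V →
        (O.card : ℝ) ≤ C * (M * log (M + 1)) := by
  have hd' : (4 : ℝ) ≤ d := by exact_mod_cast hd
  set K : ℝ := 8 * Sys.C2 d with hK
  set K' : ℝ := 2 * ((⌊exp K⌋₊ ^ ⌊exp K⌋₊ : ℕ) +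
      exp K * ((⌊exp K⌋₊ ^ ⌊exp K⌋₊ : ℕ) : ℝ) ^ d) + 1 with hK'
  have hK'0 : 0 < K' := by positivity
  refine ⟨2 * K' + 3 * d * (112 * d + 2 * (4 * d + 2)), by positivity, ?_⟩
  intro A B V O φ h hA hV M hM hsp
  have hlog2 : (1 / 2 : ℝ) ≤ log 2 := by
    have := Real.log_two_gt_d9
    linarith
  have hlogM : (1 / 2 : ℝ) ≤ log (M + 1) :=
    hlog2.trans (log_le_log (by norm_num) (by linarith))
  have hML : (1 / 2 : ℝ) ≤ M * log (M + 1) := by nlinarith
  set L : ℝ := M * log (M + 1) with hL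
  set m := ⌈16 * M⌉₊ with hm
  set n := Nat.clog d m with hn
  have hm1 : (16 * M : ℝ) ≤ m := Nat.le_ceil _
  have hm2 : (m : ℝ) ≤ 17 * M := by
    have := Nat.ceil_lt_add_one (show (0 : ℝ) ≤ 16 * M by linarith)
    linarith
  have hm3 : 1 < m := by
    have : (1 : ℝ) < m := by linarith
    exact_mod_cast this
  have hdn : (16 * M : ℝ) ≤ (d : ℝ) ^ n := by
    refine hm1.trans ?_
    exact_mod_cast Nat.le_pow_clog (by omega) m
  have hn7 : (n : ℝ) ≤ 7 * log (M + 1) := by
    have h1 : d ^ (n - 1) < m := Nat.pow_pred_clog_lt_self (by omega) hm3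
    have hn1 : 1 ≤ n := by
      by_contra hcon
      have hn0 : n = 0 := by omega
      rw [hn0, pow_zero] at hdn
      linarith
    have h2 : (d : ℝ) ^ (n - 1) ≤ 17 * M := by
      have : ((d ^ (n - 1) : ℕ) : ℝ) ≤ m := by exact_mod_cast h1.le
      push_cast at this
      linarith
    have h3 := log_le_log (by positivity) h2
    rw [log_pow, log_mul (by norm_num) (by linarith)] at h3
    have h4 : (1 : ℝ) ≤ log d := by
      have : log 4 ≤ log (d : ℝ) := log_le_log (by norm_num) hd'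
      have h5 : log (4 : ℝ) = 2 * log 2 := by
        rw [show (4 : ℝ) = 2 ^ 2 by norm_num, log_pow]; norm_num
      linarith
    have h6 : log (17 : ℝ) ≤ 3 := by
      rw [log_le_iff_le_exp (by norm_num)]
      have h7 : exp 3 = exp 1 ^ 3 := by rw [← exp_nat_mul]; norm_num
      have h8 := exp_one_gt_d9
      rw [h7]
      have h9 : (2.7 : ℝ) ^ 3 ≤ exp 1 ^ 3 := pow_le_pow_left₀ (by norm_num) (by linarith) 3
      norm_num at h9 ⊢
      linarith
    have h10 : log M ≤ log (M + 1) := log_le_log (by linarith) (by linarith)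
    have h11 : ((n - 1 : ℕ) : ℝ) = (n : ℝ) - 1 := by
      rw [Nat.cast_sub hn1]; norm_num
    rw [h11] at h3
    have h12 : (n : ℝ) - 1 ≤ ((n : ℝ) - 1) * log d := by
      have : (0 : ℝ) ≤ (n : ℝ) - 1 := by
        have : (1 : ℝ) ≤ n := by exact_mod_cast hn1
        linarith
      nlinarith
    have h13 : (0.69 : ℝ) ≤ log (M + 1) := by
      have h14 : (0.69 : ℝ) ≤ log 2 := by
        have := Real.log_two_gt_d9
        linarith
      exact h14.trans (log_le_log (by norm_num) (by linarith))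
    linarith
  set k := ⌈16 * M * n * ((d : ℝ) - 1)⌉₊ + 4 * d with hk
  have hk1 : 4 * ((d : ℝ) - 1) ≤ k := by
    rw [hk]; push_cast
    have : (0 : ℝ) ≤ (⌈16 * M * n * ((d : ℝ) - 1)⌉₊ : ℝ) := Nat.cast_nonneg _
    linarith
  have hk2 : 16 * M * n * ((d : ℝ) - 1) ≤ k := by
    rw [hk]; push_cast
    have := Nat.le_ceil (16 * M * n * ((d : ℝ) - 1))
    linarith
  rcases lt_or_ge (3 * d * k) O.card with hO | hO
  · have hG := h.gam_le hd hde hA hV hM hsp hdn hk1 hk2 hO
    have h1 := h.card_le_of_gam hd hde hA hV hG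
    rw [← hK, ← hK'] at h1
    have h2 : K' ≤ 2 * K' * L := by nlinarith
    have h3 : 0 ≤ 3 * (d : ℝ) * (112 * d + 2 * (4 * d + 2)) * L := by positivity
    calc (O.card : ℝ) ≤ K' := h1
      _ ≤ 2 * K' * L + 3 * (d : ℝ) * (112 * d + 2 * (4 * d + 2)) * L := by linarith
      _ = _ := by ring
  · have h1 : (O.card : ℝ) ≤ 3 * d * k := by exact_mod_cast hO
    have h2 : (k : ℝ) ≤ 16 * M * n * ((d : ℝ) - 1) + 1 + 4 * d := by
      rw [hk]; push_cast
      have := Nat.ceil_lt_add_one (show (0 : ℝ) ≤ 16 * M * n * ((d : ℝ) - 1) by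
        apply mul_nonneg _ (by linarith)
        positivity)
      linarith
    have h3 : 16 * M * n * ((d : ℝ) - 1) ≤ 112 * d * L := by
      have e1 : 16 * M * n * ((d : ℝ) - 1) ≤ 16 * M * (7 * log (M + 1)) * d := by
        have e2 : M * (n : ℝ) ≤ M * (7 * log (M + 1)) := mul_le_mul_of_nonneg_left hn7 (by linarith)
        have e3 : 0 ≤ M * (n : ℝ) := by positivity
        have e4 : 0 ≤ M * (7 * log (M + 1)) := e3.trans e2
        calc 16 * M * n * ((d : ℝ) - 1) = 16 * ((M * n) * ((d : ℝ) - 1)) := by ring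
          _ ≤ 16 * ((M * (7 * log (M + 1))) * d) := by
              apply mul_le_mul_of_nonneg_left _ (by norm_num)
              exact mul_le_mul e2 (by linarith) (by linarith) e4
          _ = _ := by ring
      calc _ ≤ _ := e1
        _ = 112 * d * L := by rw [hL]; ring
    have h4 : (4 * (d : ℝ) + 2) ≤ 2 * (4 * d + 2) * L := by nlinarith
    have h5 : (k : ℝ) ≤ (112 * d + 2 * (4 * d + 2)) * L := by nlinarith
    have h6 : 3 * (d : ℝ) * k ≤ 3 * d * ((112 * d + 2 * (4 * d + 2)) * L) :=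
      mul_le_mul_of_nonneg_left h5 (by positivity)
    have h7 : 0 ≤ 2 * K' * L := by positivity
    calc (O.card : ℝ) ≤ 3 * d * k := h1
      _ ≤ 3 * d * ((112 * d + 2 * (4 * d + 2)) * L) := h6
      _ ≤ _ := by nlinarith

end Pool.Agent.T6.H62.UB
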