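import Mathlib

/-!
# Pairs with equal classes, and counts along itineraries
-/

set_option autoImplicit false

namespace Pool.Agent.T6.H62.UB

open Finset

section pairs

variable {α β : Type*} [DecidableEq α] [DecidableEq β]

/-- The number of ordered pairs in the same class is at least `N² / g`. -/
theorem card_sq_le (T : Finset α) (φ : α → β) (g : ℕ) (hg : (T.image φ).card ≤ g) :
    T.card ^ 2 ≤ g * ((T ×ˢ T).filter (fun q => φ q.1 = φ q.2)).card := by
  have h1 : T.card = ∑ b ∈ T.image φ, (T.filter (fun a => φ a = b)).card :=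
    card_eq_sum_card_image φ T
  have h2 : ((T ×ˢ T).filter (fun q => φ q.1 = φ q.2)).card
      = ∑ b ∈ T.image φ, ((T.filter (fun a => φ a = b)).card) ^ 2 := by
    rw [card_eq_sum_card_fiberwise (f := fun q : α × α => φ q.1) (t := T.image φ)]
    · refine sum_congr rfl fun b hb => ?_
      rw [sq, ← card_product]
      congr 1
      ext q
      simp only [mem_filter, mem_product]
      constructor
      · rintro ⟨⟨⟨h1, h2⟩, h3⟩, h4⟩
        exact ⟨⟨h1, h4⟩, h2, h3 ▸ h4⟩
      · rintro ⟨⟨h1, h2⟩, h3, h4⟩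
        exact ⟨⟨⟨h1, h3⟩, by rw [h2, h4]⟩, h2⟩
    · intro q hq
      simp only [coe_filter, mem_product, Set.mem_setOf_eq] at hq
      simp only [coe_image, Set.mem_image, mem_coe]
      exact ⟨q.1, hq.1.1, rfl⟩
  rw [h2]
  calc T.card ^ 2 = (∑ b ∈ T.image φ, (T.filter (fun a => φ a = b)).card) ^ 2 := by rw [← h1]
    _ ≤ (T.image φ).card * ∑ b ∈ T.image φ, ((T.filter (fun a => φ a = b)).card) ^ 2 :=
        sq_sum_le_card_mul_sum_sq
    _ ≤ g * ∑ b ∈ T.image φ, ((T.filter (fun a => φ a = b)).card) ^ 2 :=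
        Nat.mul_le_mul_right _ hg

/-- The same for pairs of different elements. -/
theorem offDiag_card_ge (T : Finset α) (φ : α → β) (g : ℕ) (hg0 : 0 < g)
    (hg : (T.image φ).card ≤ g) :
    (T.card : ℝ) ^ 2 / g - T.card ≤ ((T.offDiag.filter (fun q => φ q.1 = φ q.2)).card : ℝ) := by
  have h1 := card_sq_le T φ g hg
  have h2 : (T ×ˢ T).filter (fun q => φ q.1 = φ q.2)
      = T.offDiag.filter (fun q => φ q.1 = φ q.2) ∪ T.diag := by
    ext q
    simp only [mem_filter, mem_product, mem_union, mem_offDiag, mem_diag]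
    constructor
    · rintro ⟨⟨h1, h2⟩, h3⟩
      by_cases h : q.1 = q.2
      · exact Or.inr ⟨h1, h⟩
      · exact Or.inl ⟨⟨h1, h2, h⟩, h3⟩
    · rintro (⟨⟨h1, h2, _⟩, h3⟩ | ⟨h1, h2⟩)
      · exact ⟨⟨h1, h2⟩, h3⟩
      · exact ⟨⟨h1, h2 ▸ h1⟩, by rw [h2]⟩
  have h3 : ((T ×ˢ T).filter (fun q => φ q.1 = φ q.2)).card
      ≤ (T.offDiag.filter (fun q => φ q.1 = φ q.2)).card + T.card := by
    rw [h2]
    refine (card_union_le _ _).trans ?_
    rw [diag_card]
  have h4 : (T.card : ℝ) ^ 2 ≤ g * ((T.offDiag.filter (fun q => φ q.1 = φ q.2)).card + T.card) := by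
    have := h1.trans (Nat.mul_le_mul_left g h3)
    exact_mod_cast this
  have hg' : (0 : ℝ) < g := by exact_mod_cast hg0
  have h5 : (T.card : ℝ) ^ 2 / g
      ≤ ((T.offDiag.filter (fun q => φ q.1 = φ q.2)).card : ℝ) + T.card := by
    rw [div_le_iff₀ hg']
    linarith
  linarith

end pairs

section itin

variable {α : Type*} [DecidableEq α]

/-- If `R k` are decreasing relations, the number `κ` of `k ∈ [1, n]` with `R k` satisfies
`R κ`. -/
theorem rel_count {R : ℕ → Prop} [DecidablePred R] (h0 : R 0)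
    (hR : ∀ k, R (k + 1) → R k) (n : ℕ) :
    R ((Icc 1 n).filter R).card := by
  have hanti : ∀ j k, j ≤ k → R k → R j := by
    intro j k hjk
    induction hjk with
    | refl => exact id
    | step _ ih => exact fun h => ih (hR _ h)
  rcases ((Icc 1 n).filter R).eq_empty_or_nonempty with h | h
  · rw [h]; simpa using h0
  · obtain ⟨m, hm, hmax⟩ := exists_max_image _ id h
    simp only [id] at hmax
    have hsub : (Icc 1 n).filter R ⊆ Icc 1 m := by
      intro k hk
      rw [mem_Icc]
      refine ⟨?_, hmax k hk⟩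
      rw [mem_filter, mem_Icc] at hk
      exact hk.1.1
    have hcard := card_le_card hsub
    rw [Nat.card_Icc] at hcard
    rw [mem_filter] at hm
    exact hanti _ m (by omega) hm.2

/-- Swapping the count over pairs and the count over steps. -/
theorem sum_count (S : Finset α) (R : α → ℕ → Prop) [∀ a, DecidablePred (R a)] (n : ℕ) :
    ∑ a ∈ S, (((Icc 1 n).filter (R a)).card : ℝ)
      = ∑ k ∈ Icc 1 n, ((S.filter (fun a => R a k)).card : ℝ) := by
  simp only [card_filter, Nat.cast_sum]
  rw [sum_comm]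

end itin

end Pool.Agent.T6.H62.UB
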