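import Pool.Agent.T6.H62.UB.RealPlace

/-!
# The main inequality
-/

set_option autoImplicit false

namespace Pool.Agent.T6.H62.UB

open Finset Real

/-- the logarithm of the part of `V` at the primes of `S` -/
noncomputable def LL (V : ℕ) (S : Finset ℕ) : ℝ :=
  ∑ p ∈ S, (V.factorization p : ℝ) * log p

theorem LL_nonneg (V : ℕ) (S : Finset ℕ) : 0 ≤ LL V S :=
  sum_nonneg fun p _ => mul_nonneg (Nat.cast_nonneg _) (log_natCast_nonneg p)

/-- the split primes -/
def sp (d V : ℕ) : Finset ℕ := V.primeFactors.filter (fun p => d ∣ p - 1)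

/-- the other primes -/
def ns (d V : ℕ) : Finset ℕ := V.primeFactors.filter (fun p => ¬ d ∣ p - 1)

theorem LL_primeFactors {V : ℕ} (hV : V ≠ 0) : LL V V.primeFactors = log V := by
  unfold LL
  conv_rhs => rw [← Nat.prod_factorization_pow_eq_self hV]
  rw [Finsupp.prod, Nat.support_factorization]
  push_cast
  rw [log_prod]
  · simp [log_pow]
  · intro p hp
    have := (Nat.prime_of_mem_primeFactors hp).pos
    positivity

theorem LL_le (V : ℕ) {d : ℕ} (hd : d ≠ 0) :
    ∑ p ∈ V.primeFactors, (d.factorization p : ℝ) * log p ≤ log d := by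
  rw [← LL_primeFactors hd]
  unfold LL
  have h1 : ∑ p ∈ V.primeFactors, (d.factorization p : ℝ) * log p
      = ∑ p ∈ V.primeFactors.filter (· ∈ d.primeFactors), (d.factorization p : ℝ) * log p := by
    rw [sum_filter]
    refine sum_congr rfl fun p _ => ?_
    split_ifs with h
    · rfl
    · rw [Nat.support_factorization d |>.symm, Finsupp.notMem_support_iff] at h
      rw [h]; simp
  rw [h1]
  apply sum_le_sum_of_subset_of_nonneg
  · intro p hp
    exact (mem_filter.1 hp).2
  · intro p _ _
    exact mul_nonneg (Nat.cast_nonneg _) (log_natCast_nonneg p)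

namespace Sys

variable {d : ℕ} {A B : ℤ} {V : ℕ} {O : Finset ℤ} {φ : ℤ → ℤ}

/-- The contribution of a prime that is not `1` modulo `d`. -/
theorem ns_sum (h : Sys d A B V O φ) (hd : 4 ≤ d) {p : ℕ} (hp : p.Prime) (hpV : p ∣ V)
    (hns : ¬ d ∣ p - 1) {T : Finset ℤ} (hT : T ⊆ O) (hν : 4 * ((d : ℝ) - 1) ≤ (T.card : ℝ) - 1) :
    (((T.card : ℝ) ^ 2 - T.card) * (5 / 4 : ℝ)) ≤ ((d : ℝ) - 1) *
      ((T.offDiag.filter (fun q => (q.1 : ZMod (qm p)) = (q.2 : ZMod (qm p)))).card : ℝ) := by
  have hd' : (4 : ℝ) ≤ d := by exact_mod_cast hd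
  have hN : (1 : ℝ) < T.card := by nlinarith
  have hne : T.Nonempty := by
    rw [← card_pos]
    have : (0 : ℝ) < T.card := by linarith
    exact_mod_cast this
  set g := (T.image (fun u : ℤ => (u : ZMod (qm p)))).card with hg
  have hg0 : 0 < g := card_pos.2 (hne.image _)
  have hg2 : 2 * g ≤ d := card_image_nonsplit hp hd hns (h.not_dvd_B hp hpV) T
    (fun u hu => h.dvd_eqn hpV (hT hu))
  have h1 := offDiag_card_ge T (fun u : ℤ => (u : ZMod (qm p))) g hg0 le_rfl
  have hg0' : (0 : ℝ) < g := by exact_mod_cast hg0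
  have hg2' : 2 * (g : ℝ) ≤ d := by exact_mod_cast hg2
  set N : ℝ := (T.card : ℝ) with hNdef
  set c : ℝ := ((T.offDiag.filter
    (fun q => (q.1 : ZMod (qm p)) = (q.2 : ZMod (qm p)))).card : ℝ) with hc
  have h2 : 2 * N ^ 2 / d ≤ N ^ 2 / g := by
    rw [div_le_div_iff₀ (by linarith) hg0']
    nlinarith [sq_nonneg N]
  have h3 : 2 * N ^ 2 / d - N ≤ c := by linarith
  have h4 : ((d : ℝ) - 1) * (2 * N ^ 2 / d - N) ≤ ((d : ℝ) - 1) * c :=
    mul_le_mul_of_nonneg_left h3 (by linarith)
  refine le_trans ?_ h4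
  have h5 : (3 / 2 : ℝ) ≤ 2 * ((d : ℝ) - 1) / d := by
    rw [le_div_iff₀ (by linarith)]; linarith
  have h6 : ((d : ℝ) - 1) * (2 * N ^ 2 / d - N) = 2 * ((d : ℝ) - 1) / d * N ^ 2 - (d - 1) * N := by
    field_simp
  rw [h6]
  nlinarith [sq_nonneg N, mul_le_mul_of_nonneg_right h5 (sq_nonneg N)]

/-- The main inequality. -/
theorem main_ineq (h : Sys d A B V O φ) (hd : 4 ≤ d) (hde : Even d) (hA : A ≠ 0) (hV : 0 < V)
    {T : Finset ℤ} (hT : T ⊆ O) (hs : ∀ u ∈ T, ∀ w ∈ T, u ≠ w → 0 < u * w) (p1 : ℕ)
    (hp1 : p1 ∈ V.primeFactors → ∀ u ∈ T, ∀ w ∈ T, (u : ZMod (qm p1)) = (w : ZMod (qm p1)))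
    (n : ℕ) (hν : 4 * ((d : ℝ) - 1) ≤ (T.card : ℝ) - 1) :
    log |(A : ℝ)| + (((d : ℝ) - 2) / d) * max 0 (log (XX d A B V)) + (1 / 4) * LL V (ns d V)
        + LL V (V.primeFactors.filter (· = p1))
      ≤ C1 d + ((d : ℝ) - 1) * log d
        + (1 / (d : ℝ) ^ n + n * (d - 1) / ((T.card : ℝ) - 1)) * LL V (sp d V) := by
  classical
  have hd' : (4 : ℝ) ≤ d := by exact_mod_cast hd
  have hd0 : d ≠ 0 := by omega
  set N : ℝ := (T.card : ℝ) with hNdef
  have hν0 : 0 < N - 1 := by nlinarith
  have hN : 0 < N := by linarith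
  set m : ℝ := N ^ 2 - N with hm
  have hm' : m = N * (N - 1) := by rw [hm]; ring
  have hm0 : 0 < m := by rw [hm']; positivity
  have hT1 : 1 ≤ T.card := by
    have h1 : (0 : ℝ) < (T.card : ℝ) := hN
    exact_mod_cast h1
  have hoff : (T.offDiag.card : ℝ) = m := by
    rw [offDiag_card, Nat.cast_sub (Nat.le_mul_of_pos_left _ hT1), hm]
    push_cast
    ring
  set η : ℝ := 1 / (d : ℝ) ^ n + n * (d - 1) / (N - 1) with hη
  have hη0 : 0 ≤ η := by
    have : 0 ≤ (n : ℝ) * (d - 1) / (N - 1) := by
      apply div_nonneg _ hν0.le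
      apply mul_nonneg (Nat.cast_nonneg _); linarith
    have : 0 ≤ 1 / (d : ℝ) ^ n := by positivity
    linarith
  set κ : ℕ → ℤ × ℤ → ℕ := fun p q =>
    if p = p1 then V.factorization p - d.factorization p
    else if d ∣ p - 1 then kap φ V p n q
    else if (q.1 : ZMod (qm p)) = (q.2 : ZMod (qm p)) then V.factorization p - d.factorization p
    else 0 with hκ
  have hprime : ∀ p ∈ V.primeFactors, p.Prime := fun p hp => Nat.prime_of_mem_primeFactors hp
  have hdvd : ∀ p ∈ V.primeFactors, p ∣ V := fun p hp => Nat.dvd_of_mem_primeFactors hp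
  have hsplit : ∀ p : ℕ, p.Prime → d ∣ p - 1 → ¬ p ∣ d := by
    intro p hp hdp hpd
    have h1 := Nat.le_of_dvd (by have := hp.two_le; omega) hdp
    have h2 := Nat.le_of_dvd (by omega) hpd
    have := hp.two_le
    omega
  have hdvdκ : ∀ p ∈ V.primeFactors, ∀ q ∈ T.offDiag, (p : ℤ) ^ κ p q ∣ q.1 - q.2 := by
    intro p hp q hq
    rw [mem_offDiag] at hq
    simp only [hκ]
    split_ifs with h1 h2 h3
    · subst h1
      exact h.one_step hd0 (hprime p hp) (hdvd p hp) (hT hq.1) (hT hq.2.1)
        (hp1 hp _ hq.1 _ hq.2.1)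
    · exact h.kap_dvd hd0 (hprime p hp) (hdvd p hp) (hsplit p (hprime p hp) h2) n
        (hT hq.1) (hT hq.2.1)
    · exact h.one_step hd0 (hprime p hp) (hdvd p hp) (hT hq.1) (hT hq.2.1) h3
    · simp
  -- coefficients
  set co : ℕ → ℝ := fun p => if p = p1 then (d : ℝ) - 1 else if d ∣ p - 1 then 1 - η else 5 / 4
    with hco
  have hsubcast : ∀ p : ℕ, (V.factorization p : ℝ) - d.factorization p
      ≤ ((V.factorization p - d.factorization p : ℕ) : ℝ) := by
    intro p
    have : V.factorization p ≤ (V.factorization p - d.factorization p) + d.factorization p := by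
      omega
    have : (V.factorization p : ℝ) ≤ ((V.factorization p - d.factorization p : ℕ) : ℝ)
      + d.factorization p := by exact_mod_cast this
    linarith
  have hlocal : ∀ p ∈ V.primeFactors,
      m * (co p * V.factorization p - ((d : ℝ) - 1) * d.factorization p)
        ≤ ((d : ℝ) - 1) * ∑ q ∈ T.offDiag, (κ p q : ℝ) := by
    intro p hp
    have hω : (0 : ℝ) ≤ V.factorization p := Nat.cast_nonneg _
    have hδ : (0 : ℝ) ≤ d.factorization p := Nat.cast_nonneg _
    by_cases h1 : p = p1
    · have e1 : ∑ q ∈ T.offDiag, (κ p q : ℝ)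
          = m * ((V.factorization p - d.factorization p : ℕ) : ℝ) := by
        simp only [hκ, h1, if_true]
        rw [sum_const, nsmul_eq_mul, hoff]
      rw [e1]
      have e2 : co p = (d : ℝ) - 1 := by simp only [hco, h1, if_true]
      rw [e2]
      have := hsubcast p
      have h3 : m * (((d : ℝ) - 1) * V.factorization p - ((d : ℝ) - 1) * d.factorization p)
          = (m * ((d : ℝ) - 1)) * ((V.factorization p : ℝ) - d.factorization p) := by ring
      have h4 : ((d : ℝ) - 1) * (m * ((V.factorization p - d.factorization p : ℕ) : ℝ))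
          = (m * ((d : ℝ) - 1)) * ((V.factorization p - d.factorization p : ℕ) : ℝ) := by ring
      rw [h3, h4]
      apply mul_le_mul_of_nonneg_left this
      apply mul_nonneg hm0.le; linarith
    · by_cases h2 : d ∣ p - 1
      · have e1 : ∑ q ∈ T.offDiag, (κ p q : ℝ) = ∑ q ∈ T.offDiag, (kap φ V p n q : ℝ) := by
          refine sum_congr rfl fun q _ => ?_
          simp only [hκ, h1, h2, if_true, if_false]
        have e2 : co p = 1 - η := by simp only [hco, h1, h2, if_true, if_false]
        rw [e1, e2]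
        refine le_trans ?_ (h.kap_sum hd (hprime p hp) (hdvd p hp) n hT)
        rw [← hNdef]
        have h3 : (1 - η) * m ≤ N ^ 2 * (1 - 1 / (d : ℝ) ^ n) - n * (d - 1) * N := by
          have h4 : n * ((d : ℝ) - 1) / (N - 1) * m = n * (d - 1) * N := by
            rw [hm']; field_simp
          have h5 : 0 ≤ 1 - 1 / (d : ℝ) ^ n := by
            rw [sub_nonneg, div_le_one (by positivity)]
            exact one_le_pow₀ (by linarith)
          have h6 : m ≤ N ^ 2 := by rw [hm]; linarith
          have h7 : (1 - η) * m = m * (1 - 1 / (d : ℝ) ^ n)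
              - n * ((d : ℝ) - 1) / (N - 1) * m := by
            rw [hη]; ring
          rw [h7, h4]
          have := mul_le_mul_of_nonneg_right h6 h5
          linarith
        have h8 := mul_le_mul_of_nonneg_left h3 hω
        have h9 : 0 ≤ m * (((d : ℝ) - 1) * d.factorization p) := by
          apply mul_nonneg hm0.le
          apply mul_nonneg _ hδ; linarith
        nlinarith
      · have e1 : ∑ q ∈ T.offDiag, (κ p q : ℝ)
            = ((T.offDiag.filter (fun q => (q.1 : ZMod (qm p)) = (q.2 : ZMod (qm p)))).card : ℝ)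
              * ((V.factorization p - d.factorization p : ℕ) : ℝ) := by
          rw [card_filter]
          push_cast
          rw [sum_mul]
          refine sum_congr rfl fun q _ => ?_
          simp only [hκ, h1, h2, if_false]
          split_ifs <;> simp
        have e2 : co p = 5 / 4 := by simp only [hco, h1, h2, if_false]
        rw [e1, e2]
        have h3 := h.ns_sum hd (hprime p hp) (hdvd p hp) h2 hT hν
        rw [← hNdef, ← hm] at h3
        have h4 := hsubcast p
        have h5 : (0 : ℝ) ≤ ((V.factorization p - d.factorization p : ℕ) : ℝ) := Nat.cast_nonneg _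
        have h6 := mul_le_mul_of_nonneg_right h3 h5
        have h7 : m * (5 / 4) * ((V.factorization p : ℝ) - d.factorization p)
            ≤ m * (5 / 4) * ((V.factorization p - d.factorization p : ℕ) : ℝ) :=
          mul_le_mul_of_nonneg_left h4 (by positivity)
        have h8 : m * (5 / 4) * (d.factorization p : ℝ)
            ≤ m * (((d : ℝ) - 1) * d.factorization p) := by
          have : (5 / 4 : ℝ) * (d.factorization p : ℝ) ≤ ((d : ℝ) - 1) * d.factorization p := by
            nlinarith
          nlinarith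
        linarith
  -- the sum over the primes
  have hsum1 := sum_log_ge T V.primeFactors hprime κ hdvdκ
  have hsum2 : ((d : ℝ) - 1) * ∑ q ∈ T.offDiag, log |((q.1 - q.2 : ℤ) : ℝ)|
      ≤ m * (log V - log |(A : ℝ)| - (((d : ℝ) - 2) / d) * max 0 (log (XX d A B V)) + C1 d) := by
    rw [← hoff, mul_sum, ← nsmul_eq_mul]
    apply sum_le_card_nsmul
    intro q hq
    rw [mem_offDiag] at hq
    exact h.real_bound hd hde hA hV (hT hq.1) (hT hq.2.1) hq.2.2 (hs _ hq.1 _ hq.2.1 hq.2.2)
  have hsum3 : m * ∑ p ∈ V.primeFactors, log p *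
      (co p * V.factorization p - ((d : ℝ) - 1) * d.factorization p)
      ≤ ((d : ℝ) - 1) * ∑ p ∈ V.primeFactors, log p * ∑ q ∈ T.offDiag, (κ p q : ℝ) := by
    rw [mul_sum, mul_sum]
    refine sum_le_sum fun p hp => ?_
    have := mul_le_mul_of_nonneg_left (hlocal p hp) (log_natCast_nonneg p)
    calc _ = log p * (m * (co p * V.factorization p - ((d : ℝ) - 1) * d.factorization p)) := by
          ring
      _ ≤ _ := this
      _ = _ := by ring
  have hsum4 : ∑ p ∈ V.primeFactors, log p *
      (co p * V.factorization p - ((d : ℝ) - 1) * d.factorization p)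
      ≤ log V - log |(A : ℝ)| - (((d : ℝ) - 2) / d) * max 0 (log (XX d A B V)) + C1 d := by
    apply le_of_mul_le_mul_left _ hm0
    refine hsum3.trans (le_trans ?_ hsum2)
    exact mul_le_mul_of_nonneg_left hsum1 (by linarith)
  have hsum5 : log V + (1 / 4) * LL V (ns d V) + LL V (V.primeFactors.filter (· = p1))
      - η * LL V (sp d V) - ((d : ℝ) - 1) * log d
      ≤ ∑ p ∈ V.primeFactors, log p *
      (co p * V.factorization p - ((d : ℝ) - 1) * d.factorization p) := by
    have e1 := LL_le V hd0
    have e2 := mul_le_mul_of_nonneg_left e1 (show (0 : ℝ) ≤ (d : ℝ) - 1 by linarith)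
    have e3 : log V + (1 / 4) * LL V (ns d V) + LL V (V.primeFactors.filter (· = p1))
        - η * LL V (sp d V) ≤ ∑ p ∈ V.primeFactors, log p * (co p * V.factorization p) := by
      rw [← LL_primeFactors hV.ne']
      unfold LL ns sp
      rw [sum_filter, sum_filter, sum_filter, mul_sum, mul_sum, ← sum_add_distrib,
        ← sum_add_distrib, ← sum_sub_distrib]
      refine sum_le_sum fun p _ => ?_
      have hw : 0 ≤ (V.factorization p : ℝ) * log p :=
        mul_nonneg (Nat.cast_nonneg _) (log_natCast_nonneg p)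
      have e4 : log p * (co p * V.factorization p) = co p * (V.factorization p * log p) := by ring
      rw [e4]
      set W := (V.factorization p : ℝ) * log p
      simp only [hco]
      split_ifs with h1 h2 h3 <;> first | contradiction | nlinarith
    have e5 : ∑ p ∈ V.primeFactors, log p *
      (co p * V.factorization p - ((d : ℝ) - 1) * d.factorization p)
      = ∑ p ∈ V.primeFactors, log p * (co p * V.factorization p)
        - ((d : ℝ) - 1) * ∑ p ∈ V.primeFactors, (d.factorization p : ℝ) * log p := by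
      rw [mul_sum, ← sum_sub_distrib]
      refine sum_congr rfl fun p _ => by ring
    rw [e5]
    linarith
  linarith

end Sys

end Pool.Agent.T6.H62.UB
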