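import Mathlib

/-!
# Local estimates at a prime dividing the denominator
-/

set_option autoImplicit false

namespace Pool.Agent.T6.H62.UB

open Finset

/-- the modulus of the classes at `p` -/
def qm (p : ℕ) : ℕ := if p = 2 then 4 else p

theorem dvd_qm (p : ℕ) : p ∣ qm p := by
  unfold qm
  split_ifs with h
  · subst h; decide
  · exact dvd_rfl

theorem qm_pos {p : ℕ} (hp : p.Prime) : 0 < qm p := by
  unfold qm
  split_ifs with h
  · norm_num
  · exact hp.pos

/-- Lifting the exponent, as a divisibility. -/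
theorem lte {p : ℕ} (hp : p.Prime) {d : ℕ} (hd0 : d ≠ 0) {u w : ℤ}
    (huw : ((qm p : ℕ) : ℤ) ∣ u - w) (hu : ¬ (p : ℤ) ∣ u) {m : ℕ}
    (hm : (p : ℤ) ^ m ∣ u ^ d - w ^ d) : (p : ℤ) ^ (m - d.factorization p) ∣ u - w := by
  have key : emultiplicity (p : ℤ) (u ^ d - w ^ d)
      = emultiplicity (p : ℤ) (u - w) + emultiplicity p d := by
    by_cases h2 : p = 2
    · subst h2
      have h4 : (4 : ℤ) ∣ u - w := by simpa [qm] using huw
      have := Int.two_pow_sub_pow' d h4 (by exact_mod_cast hu)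
      rw [Nat.cast_ofNat, this]
      congr 1
      exact_mod_cast Int.natCast_emultiplicity 2 d
    · have hodd : Odd p := hp.odd_of_ne_two h2
      have h1 : (p : ℤ) ∣ u - w := by simpa [qm, h2] using huw
      exact Int.emultiplicity_pow_sub_pow hp hodd h1 hu d
  have hfac : emultiplicity p d = (d.factorization p : ℕ∞) := by
    have : Fact p.Prime := ⟨hp⟩
    rw [← padicValNat_eq_emultiplicity hd0, Nat.factorization_def d hp]
  rw [pow_dvd_iff_le_emultiplicity] at hm ⊢
  rw [key, hfac] at hm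
  rw [ENat.coe_sub]
  exact tsub_le_iff_right.2 hm

/-- The classes at an odd prime are at most `gcd(d, p - 1)`. -/
theorem card_image_gcd {p : ℕ} (hp : p.Prime) {d : ℕ} (hd0 : 0 < d) {A B : ZMod p}
    (hB : B ≠ 0) (T : Finset ℤ) (hT : ∀ u ∈ T, A * (u : ZMod p) ^ d + B = 0) :
    (T.image (fun u : ℤ => (u : ZMod p))).card ≤ Nat.gcd d (p - 1) := by
  haveI := Fact.mk hp
  rcases T.eq_empty_or_nonempty with h | ⟨u0, hu0⟩
  · subst h; simp
  have hz0 : (u0 : ZMod p) ≠ 0 := by
    intro h
    have := hT u0 hu0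
    rw [h, zero_pow hd0.ne', mul_zero, zero_add] at this
    exact hB this
  have hA : A ≠ 0 := by
    intro h
    have := hT u0 hu0
    rw [h, zero_mul, zero_add] at this
    exact hB this
  have hg : 0 < Nat.gcd d (p - 1) := Nat.gcd_pos_of_pos_left _ hd0
  have hcard : ((Polynomial.nthRoots (Nat.gcd d (p - 1)) (1 : ZMod p)).toFinset).card
      ≤ Nat.gcd d (p - 1) :=
    (Multiset.toFinset_card_le _).trans (Polynomial.card_nthRoots _ _)
  refine le_trans ?_ hcard
  apply card_le_card_of_injOn (fun z => z / (u0 : ZMod p))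
  · intro z hz
    simp only [coe_image, Set.mem_image, mem_coe] at hz
    obtain ⟨u, hu, rfl⟩ := hz
    simp only [mem_coe, Multiset.mem_toFinset]
    rw [Polynomial.mem_nthRoots hg]
    have hz : (u : ZMod p) ≠ 0 := by
      intro h
      have := hT u hu
      rw [h, zero_pow hd0.ne', mul_zero, zero_add] at this
      exact hB this
    have h1 : ((u : ZMod p) / u0) ^ d = 1 := by
      rw [div_pow, div_eq_one_iff_eq (pow_ne_zero _ hz0)]
      have e1 := hT u hu
      have e2 := hT u0 hu0
      have : A * (u : ZMod p) ^ d = A * (u0 : ZMod p) ^ d := by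
        linear_combination e1 - e2
      exact mul_left_cancel₀ hA this
    have h2 : ((u : ZMod p) / u0) ^ (p - 1) = 1 :=
      ZMod.pow_card_sub_one_eq_one (div_ne_zero hz hz0)
    exact pow_gcd_eq_one.2 ⟨h1, h2⟩
  · intro z _ z' _ h
    exact (div_left_inj' hz0).1 h

/-- The classes at a prime which is not `1` modulo `d` are at most `d / 2`. -/
theorem card_image_nonsplit {p : ℕ} (hp : p.Prime) {d : ℕ} (hd4 : 4 ≤ d)
    (hns : ¬ d ∣ p - 1) {A B : ℤ} (hB : ¬ (p : ℤ) ∣ B) (T : Finset ℤ)
    (hT : ∀ u ∈ T, (p : ℤ) ∣ A * u ^ d + B) :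
    2 * (T.image (fun u : ℤ => (u : ZMod (qm p)))).card ≤ d := by
  by_cases h2 : p = 2
  · subst h2
    have : (T.image (fun u : ℤ => (u : ZMod (qm 2)))) ⊆ ({1, 3} : Finset (ZMod (qm 2))) := by
      intro z hz
      rw [mem_image] at hz
      obtain ⟨u, hu, rfl⟩ := hz
      have hu2 : ¬ (2 : ℤ) ∣ u := by
        intro h
        have h1 := hT u hu
        have h3 : ((2 : ℕ) : ℤ) ∣ A * u ^ d := by
          exact_mod_cast Dvd.dvd.mul_left (dvd_pow h (by omega)) A
        exact hB ((Int.dvd_iff_dvd_of_dvd_add h1).1 h3)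
      have h4 : u % 4 = 1 ∨ u % 4 = 3 := by omega
      have hq : qm 2 = 4 := rfl
      have e : ((u : ℤ) : ZMod (qm 2)) = ((u % 4 : ℤ) : ZMod (qm 2)) := by
        rw [ZMod.intCast_eq_intCast_iff, hq]
        exact (Int.mod_modEq u 4).symm
      rw [e]
      rcases h4 with h | h <;> rw [h] <;> simp
    have h3 := card_le_card this
    have h4 : ({1, 3} : Finset (ZMod (qm 2))).card ≤ 2 := card_le_two
    omega
  · have hq : qm p = p := by simp [qm, h2]
    rw [hq]
    have hB' : (B : ZMod p) ≠ 0 := by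
      rwa [Ne, ZMod.intCast_zmod_eq_zero_iff_dvd]
    have h1 := card_image_gcd hp (d := d) (by omega) (A := (A : ZMod p)) hB' T (by
      intro u hu
      have := (ZMod.intCast_zmod_eq_zero_iff_dvd _ p).2 (hT u hu)
      push_cast at this
      exact this)
    have h3 : Nat.gcd d (p - 1) ∣ d := Nat.gcd_dvd_left _ _
    obtain ⟨k, hk⟩ := h3
    have hk1 : k ≠ 1 := by
      rintro rfl
      rw [mul_one] at hk
      exact hns (hk ▸ Nat.gcd_dvd_right d (p - 1))
    have hk0 : k ≠ 0 := by
      rintro rfl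
      omega
    have hk2 : 2 ≤ k := by omega
    calc 2 * (T.image (fun u : ℤ => (u : ZMod p))).card ≤ k * Nat.gcd d (p - 1) :=
          Nat.mul_le_mul hk2 h1
      _ = d := by rw [mul_comm]; exact hk.symm

/-- In any case there are at most `d` classes. -/
theorem card_image_any {p : ℕ} (hp : p.Prime) {d : ℕ} (hd4 : 4 ≤ d)
    {A B : ℤ} (hB : ¬ (p : ℤ) ∣ B) (T : Finset ℤ)
    (hT : ∀ u ∈ T, (p : ℤ) ∣ A * u ^ d + B) :
    (T.image (fun u : ℤ => (u : ZMod (qm p)))).card ≤ d := by
  by_cases hns : d ∣ p - 1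
  · have h2 : p ≠ 2 := by
      rintro rfl
      have := Nat.le_of_dvd (by norm_num) hns
      omega
    have hq : qm p = p := by simp [qm, h2]
    rw [hq]
    have hB' : (B : ZMod p) ≠ 0 := by
      rwa [Ne, ZMod.intCast_zmod_eq_zero_iff_dvd]
    have h1 := card_image_gcd hp (d := d) (by omega) (A := (A : ZMod p)) hB' T (by
      intro u hu
      have := (ZMod.intCast_zmod_eq_zero_iff_dvd _ p).2 (hT u hu)
      push_cast at this
      exact this)
    exact h1.trans (Nat.gcd_le_left _ (by omega))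
  · have := card_image_nonsplit hp hd4 hns hB T hT
    omega

end Pool.Agent.T6.H62.UB
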