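import Pool.Agent.T6.H62.UB.Comb
import Pool.Agent.T6.H62.UB.Local

/-!
# Itineraries at a prime dividing the denominator, and the sum over pairs
-/

set_option autoImplicit false

namespace Pool.Agent.T6.H62.UB

open Finset

/-- A finite set `O` of integers which is mapped to itself by `(A x ^ d + B) / V`. -/
structure Sys (d : ℕ) (A B : ℤ) (V : ℕ) (O : Finset ℤ) (φ : ℤ → ℤ) : Prop where
  maps : ∀ u ∈ O, φ u ∈ O
  eqn : ∀ u ∈ O, (V : ℤ) * φ u = A * u ^ d + B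
  copA : IsCoprime A (V : ℤ)
  copB : IsCoprime B (V : ℤ)

namespace Sys

variable {d : ℕ} {A B : ℤ} {V : ℕ} {O : Finset ℤ} {φ : ℤ → ℤ}

theorem iter_mem (h : Sys d A B V O φ) {u : ℤ} (hu : u ∈ O) (k : ℕ) : φ^[k] u ∈ O := by
  induction k generalizing u with
  | zero => exact hu
  | succ k ih => rw [Function.iterate_succ_apply]; exact ih (h.maps u hu)

theorem not_dvd_A (h : Sys d A B V O φ) {p : ℕ} (hp : p.Prime) (hpV : p ∣ V) :
    ¬ (p : ℤ) ∣ A := by
  intro hA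
  have := h.copA.isUnit_of_dvd' hA (Int.natCast_dvd_natCast.2 hpV)
  rw [Int.isUnit_iff] at this
  have := hp.one_lt
  omega

theorem not_dvd_B (h : Sys d A B V O φ) {p : ℕ} (hp : p.Prime) (hpV : p ∣ V) :
    ¬ (p : ℤ) ∣ B := by
  intro hB
  have := h.copB.isUnit_of_dvd' hB (Int.natCast_dvd_natCast.2 hpV)
  rw [Int.isUnit_iff] at this
  have := hp.one_lt
  omega

theorem dvd_eqn (h : Sys d A B V O φ) {p : ℕ} (hpV : p ∣ V) {u : ℤ} (hu : u ∈ O) :
    (p : ℤ) ∣ A * u ^ d + B := by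
  rw [← h.eqn u hu]
  exact Dvd.dvd.mul_right (Int.natCast_dvd_natCast.2 hpV) _

theorem not_dvd (h : Sys d A B V O φ) (hd : d ≠ 0) {p : ℕ} (hp : p.Prime) (hpV : p ∣ V)
    {u : ℤ} (hu : u ∈ O) : ¬ (p : ℤ) ∣ u := by
  intro hpu
  have h1 := h.dvd_eqn hpV hu
  have h3 : (p : ℤ) ∣ A * u ^ d := Dvd.dvd.mul_left (dvd_pow hpu hd) A
  exact h.not_dvd_B hp hpV ((Int.dvd_iff_dvd_of_dvd_add h1).1 h3)

/-- One step: if `u`, `w` are in the same class at `p` then a power of `p` dividing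
`φ u - φ w` gives a larger one dividing `u - w`. -/
theorem step (h : Sys d A B V O φ) (hd : d ≠ 0) {p : ℕ} (hp : p.Prime) (hpV : p ∣ V)
    {u w : ℤ} (hu : u ∈ O) (hw : w ∈ O) (huw : (u : ZMod (qm p)) = (w : ZMod (qm p))) {m : ℕ}
    (hm : (p : ℤ) ^ m ∣ φ u - φ w) :
    (p : ℤ) ^ (V.factorization p + m - d.factorization p) ∣ u - w := by
  apply lte hp hd
  · rw [← ZMod.intCast_zmod_eq_zero_iff_dvd]
    push_cast
    rw [huw, sub_self]
  · exact h.not_dvd hd hp hpV hu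
  · have h1 : (V : ℤ) * (φ u - φ w) = A * (u ^ d - w ^ d) := by
      linear_combination h.eqn u hu - h.eqn w hw
    have h2 : (p : ℤ) ^ (V.factorization p) ∣ (V : ℤ) := by
      exact_mod_cast Nat.ordProj_dvd V p
    have h3 : (p : ℤ) ^ (V.factorization p + m) ∣ A * (u ^ d - w ^ d) := by
      rw [← h1, pow_add]
      exact mul_dvd_mul h2 hm
    have hcop : IsCoprime ((p : ℤ) ^ (V.factorization p + m)) A := by
      apply IsCoprime.pow_left
      rw [Prime.coprime_iff_not_dvd (Nat.prime_iff_prime_int.1 hp)]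
      exact h.not_dvd_A hp hpV
    exact hcop.dvd_of_dvd_mul_left h3

/-- The estimate from one step. -/
theorem one_step (h : Sys d A B V O φ) (hd : d ≠ 0) {p : ℕ} (hp : p.Prime) (hpV : p ∣ V)
    {u w : ℤ} (hu : u ∈ O) (hw : w ∈ O) (huw : (u : ZMod (qm p)) = (w : ZMod (qm p))) :
    (p : ℤ) ^ (V.factorization p - d.factorization p) ∣ u - w := by
  have := h.step hd hp hpV hu hw huw (m := 0) (by simp)
  simpa using this

/-- The itinerary of length `k` at `p`. -/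
def itin (φ : ℤ → ℤ) (p k : ℕ) (u : ℤ) : Fin k → ZMod (qm p) :=
  fun i => ((φ^[(i : ℕ)] u : ℤ) : ZMod (qm p))

theorem itin_succ {φ : ℤ → ℤ} {p k : ℕ} {u w : ℤ} (h : itin φ p (k + 1) u = itin φ p (k + 1) w) :
    (u : ZMod (qm p)) = (w : ZMod (qm p)) ∧ itin φ p k (φ u) = itin φ p k (φ w) := by
  constructor
  · have := congrFun h 0
    simpa [itin] using this
  · funext i
    have := congrFun h i.succ
    simpa [itin, Function.iterate_succ_apply] using this

theorem itin_mono {φ : ℤ → ℤ} {p k : ℕ} {u w : ℤ} (h : itin φ p (k + 1) u = itin φ p (k + 1) w) :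
    itin φ p k u = itin φ p k w := by
  funext i
  have := congrFun h i.castSucc
  simpa [itin] using this

/-- Several steps at a prime not dividing `d`. -/
theorem many_steps (h : Sys d A B V O φ) (hd : d ≠ 0) {p : ℕ} (hp : p.Prime) (hpV : p ∣ V)
    (hpd : ¬ p ∣ d) (k : ℕ) {u w : ℤ} (hu : u ∈ O) (hw : w ∈ O)
    (huw : itin φ p k u = itin φ p k w) :
    (p : ℤ) ^ (k * V.factorization p) ∣ u - w := by
  induction k generalizing u w with
  | zero => simp
  | succ k ih =>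
    obtain ⟨h1, h2⟩ := itin_succ huw
    have h3 := ih (h.maps u hu) (h.maps w hw) h2
    have h4 := h.step hd hp hpV hu hw h1 h3
    rw [Nat.factorization_eq_zero_of_not_dvd hpd, Nat.sub_zero] at h4
    convert h4 using 2
    ring

theorem card_itin (h : Sys d A B V O φ) (hd : 4 ≤ d) {p : ℕ} (hp : p.Prime) (hpV : p ∣ V)
    {T : Finset ℤ} (hT : T ⊆ O) (k : ℕ) : (T.image (itin φ p k)).card ≤ d ^ k := by
  classical
  have h1 : T.image (itin φ p k) ⊆
      Fintype.piFinset (fun _ : Fin k => O.image (fun u : ℤ => (u : ZMod (qm p)))) := by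
    intro z hz
    rw [mem_image] at hz
    obtain ⟨u, hu, rfl⟩ := hz
    rw [Fintype.mem_piFinset]
    intro i
    exact mem_image_of_mem _ (h.iter_mem (hT hu) _)
  refine (card_le_card h1).trans ?_
  rw [Fintype.card_piFinset_const]
  exact Nat.pow_le_pow_left
    (card_image_any hp hd (h.not_dvd_B hp hpV) O fun u hu => h.dvd_eqn hpV hu) k

end Sys

open Classical in
/-- The exponent used for a pair at the prime `p`, with `n` steps. -/
noncomputable def kap (φ : ℤ → ℤ) (V p n : ℕ) (q : ℤ × ℤ) : ℕ :=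
  ((Icc 1 n).filter fun k => Sys.itin φ p k q.1 = Sys.itin φ p k q.2).card * V.factorization p

namespace Sys

variable {d : ℕ} {A B : ℤ} {V : ℕ} {O : Finset ℤ} {φ : ℤ → ℤ}

theorem kap_dvd (h : Sys d A B V O φ) (hd : d ≠ 0) {p : ℕ} (hp : p.Prime) (hpV : p ∣ V)
    (hpd : ¬ p ∣ d) (n : ℕ) {q : ℤ × ℤ} (hu : q.1 ∈ O) (hw : q.2 ∈ O) :
    (p : ℤ) ^ kap φ V p n q ∣ q.1 - q.2 := by
  classical
  unfold kap
  apply h.many_steps hd hp hpV hpd _ hu hw
  convert! rel_count (R := fun k => Sys.itin φ p k q.1 = Sys.itin φ p k q.2) ?_ ?_ n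
  · funext i; exact i.elim0
  · intro k hk; exact itin_mono hk

theorem kap_sum (h : Sys d A B V O φ) (hd : 4 ≤ d) {p : ℕ} (hp : p.Prime) (hpV : p ∣ V)
    (n : ℕ) {T : Finset ℤ} (hT : T ⊆ O) :
    (V.factorization p : ℝ) * ((T.card : ℝ) ^ 2 * (1 - 1 / (d : ℝ) ^ n) - n * (d - 1) * T.card)
      ≤ ((d : ℝ) - 1) * ∑ q ∈ T.offDiag, (kap φ V p n q : ℝ) := by
  classical
  have hd1 : (0 : ℝ) < (d : ℝ) - 1 := by
    have : (4 : ℝ) ≤ d := by exact_mod_cast hd
    linarith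
  have hd0 : (0 : ℝ) < (d : ℝ) := by linarith
  have e1 : ∑ q ∈ T.offDiag, (kap φ V p n q : ℝ) = (V.factorization p : ℝ) *
      ∑ k ∈ Icc 1 n, ((T.offDiag.filter
        (fun q => Sys.itin φ p k q.1 = Sys.itin φ p k q.2)).card : ℝ) := by
    rw [← sum_count T.offDiag (fun q k => Sys.itin φ p k q.1 = Sys.itin φ p k q.2) n,
      mul_sum]
    refine sum_congr rfl fun q _ => ?_
    unfold kap
    push_cast
    rw [mul_comm]
  rw [e1]
  have e2 : ∑ k ∈ Icc 1 n, ((T.card : ℝ) ^ 2 / ((d ^ k : ℕ) : ℝ) - T.card) ≤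
      ∑ k ∈ Icc 1 n, ((T.offDiag.filter
        (fun q => Sys.itin φ p k q.1 = Sys.itin φ p k q.2)).card : ℝ) := by
    refine sum_le_sum fun k _ => ?_
    exact offDiag_card_ge T (Sys.itin φ p k) (d ^ k) (by positivity) (h.card_itin hd hp hpV hT k)
  have e3 : ((d : ℝ) - 1) * ∑ k ∈ Icc 1 n, ((T.card : ℝ) ^ 2 / ((d ^ k : ℕ) : ℝ) - T.card)
      = (T.card : ℝ) ^ 2 * (1 - 1 / (d : ℝ) ^ n) - n * (d - 1) * T.card := by
    clear e1 e2
    induction n with
    | zero => simp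
    | succ n ih =>
      rw [sum_Icc_succ_top (by omega), mul_add, ih]
      push_cast
      field_simp
      ring
  have e4 := mul_le_mul_of_nonneg_left e2 hd1.le
  rw [e3] at e4
  have e5 := mul_le_mul_of_nonneg_left e4 (Nat.cast_nonneg (α := ℝ) (V.factorization p))
  calc _ ≤ _ := e5
    _ = _ := by ring

end Sys

/-- The sum of `log |u - w|` over pairs is at least what the primes give. -/
theorem sum_log_ge (T : Finset ℤ) (P : Finset ℕ) (hP : ∀ p ∈ P, p.Prime) (κ : ℕ → ℤ × ℤ → ℕ)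
    (hκ : ∀ p ∈ P, ∀ q ∈ T.offDiag, (p : ℤ) ^ κ p q ∣ q.1 - q.2) :
    ∑ p ∈ P, Real.log p * ∑ q ∈ T.offDiag, (κ p q : ℝ)
      ≤ ∑ q ∈ T.offDiag, Real.log |((q.1 - q.2 : ℤ) : ℝ)| := by
  have e1 : ∑ p ∈ P, Real.log p * ∑ q ∈ T.offDiag, (κ p q : ℝ)
      = ∑ q ∈ T.offDiag, ∑ p ∈ P, (κ p q : ℝ) * Real.log p := by
    simp only [mul_sum]
    rw [sum_comm]
    refine sum_congr rfl fun q _ => sum_congr rfl fun p _ => mul_comm _ _
  rw [e1]
  refine sum_le_sum fun q hq => ?_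
  have hne : q.1 - q.2 ≠ 0 := sub_ne_zero.2 (mem_offDiag.1 hq).2.2
  have h1 : ∏ p ∈ P, (p : ℤ) ^ κ p q ∣ q.1 - q.2 := by
    apply Finset.prod_dvd_of_coprime
    · intro p hp p' hp' hne
      apply IsCoprime.pow
      exact_mod_cast (Nat.coprime_primes (hP p hp) (hP p' hp')).2 hne
    · intro p hp
      exact hκ p hp q hq
  have h2 : ∏ p ∈ P, (p : ℤ) ^ κ p q ≤ |q.1 - q.2| :=
    Int.le_of_dvd (abs_pos.2 hne) ((dvd_abs _ _).2 h1)
  have h3 : ∏ p ∈ P, (p : ℝ) ^ κ p q ≤ |((q.1 - q.2 : ℤ) : ℝ)| := by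
    have : ((∏ p ∈ P, (p : ℤ) ^ κ p q : ℤ) : ℝ) ≤ ((|q.1 - q.2| : ℤ) : ℝ) := by
      exact_mod_cast h2
    push_cast at this ⊢
    exact this
  have hpos : 0 < ∏ p ∈ P, (p : ℝ) ^ κ p q := by
    apply prod_pos
    intro p hp
    have := (hP p hp).pos
    positivity
  have h4 := Real.log_le_log hpos h3
  rw [Real.log_prod (fun p hp => by
    have := (hP p hp).pos
    positivity)] at h4
  simpa [Real.log_pow] using h4

end Pool.Agent.T6.H62.UB
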