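import Pool.Agent.T6.H62.UB.Itin

/-!
# The estimate at the real place
-/

set_option autoImplicit false

namespace Pool.Agent.T6.H62.UB

open Finset Real

/-- the constant of the real place -/
noncomputable def C1 (d : ℕ) : ℝ := 2 * d * log 2 + 2 * log (3 * 2 ^ (d - 1))

theorem real_large {d : ℕ} (hd : 4 ≤ d) {a v b R x z : ℝ} (ha : 0 < a) (hv : 0 < v)
    (hb : 0 ≤ b) (hR0 : 0 < R) (hx0 : 0 < x) (hz0 : 0 < z)
    (hR : a * R ^ d ≤ v * R + b) (hx : b - v * R ≤ a * x ^ d)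
    (hz : a * x ^ (d - 1) * z ≤ 2 * v * R)
    (hX : 3 * 2 ^ (d - 1) ≤ a * b ^ (d - 1) / v ^ d) :
    ((d : ℝ) - 1) * log z ≤ log v - log a - (((d : ℝ) - 2) / d) * log (a * b ^ (d - 1) / v ^ d)
      + 2 * ((d : ℝ) - 1) * log 2 := by
  obtain ⟨e, rfl⟩ : ∃ e, d = e + 1 := ⟨d - 1, by omega⟩
  simp only [Nat.add_sub_cancel] at *
  have he : 3 ≤ e := by omega
  have hvd : 0 < v ^ (e + 1) := by positivity
  rw [le_div_iff₀ hvd] at hX
  have hVR : v * R ≤ b / 2 := by
    by_contra hcon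
    push Not at hcon
    have h1 : b < 2 * v * R := by linarith
    have h2 : a * R ^ e < 3 * v := by
      have : a * R ^ e * R < 3 * v * R := by
        calc a * R ^ e * R = a * R ^ (e + 1) := by ring
          _ ≤ v * R + b := hR
          _ < 3 * v * R := by linarith
      exact lt_of_mul_lt_mul_right this hR0.le
    have h3 : b ^ e < (2 * v * R) ^ e := pow_lt_pow_left₀ h1 hb (by omega)
    have h4 : a * b ^ e < 3 * 2 ^ e * v ^ (e + 1) := by
      calc a * b ^ e < a * (2 * v * R) ^ e := by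
            exact mul_lt_mul_of_pos_left h3 ha
        _ = 2 ^ e * v ^ e * (a * R ^ e) := by rw [mul_pow, mul_pow]; ring
        _ < 2 ^ e * v ^ e * (3 * v) := by
            exact mul_lt_mul_of_pos_left h2 (by positivity)
        _ = 3 * 2 ^ e * v ^ (e + 1) := by ring
    linarith
  have hb0 : 0 < b := by
    have : 0 < v * R := by positivity
    linarith
  have h5 : b / 2 ≤ a * x ^ (e + 1) := by linarith
  have h6 : a * R ^ (e + 1) ≤ 2 * b := by linarith
  have l5 := log_le_log (by positivity) h5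
  have l6 := log_le_log (by positivity) h6
  have lz := log_le_log (by positivity) hz
  rw [log_div hb0.ne' (by norm_num), log_mul ha.ne' (by positivity), log_pow] at l5
  rw [log_mul ha.ne' (by positivity), log_pow, log_mul (by norm_num) hb0.ne'] at l6
  rw [log_mul (by positivity) hz0.ne', log_mul ha.ne' (by positivity), log_pow,
    log_mul (by positivity) hR0.ne', log_mul (by norm_num) hv.ne'] at lz
  rw [log_div (by positivity) (by positivity), log_mul ha.ne' (by positivity), log_pow, log_pow]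
  push_cast at *
  have hE : (3 : ℝ) ≤ (e : ℝ) := by exact_mod_cast he
  set E : ℝ := (e : ℝ)
  have hE1 : 0 < E + 1 := by linarith
  have k5 := mul_le_mul_of_nonneg_left l5 (show 0 ≤ E ^ 2 by positivity)
  have k6 := mul_le_mul_of_nonneg_left l6 (show 0 ≤ E by positivity)
  have kz := mul_le_mul_of_nonneg_left lz (show 0 ≤ (E + 1) * E by positivity)
  have goal' : (E + 1) * ((E + 1 - 1) * log z) ≤ (E + 1) * (log v - log a)
      - (E + 1 - 2) * (log a + E * log b - (E + 1) * log v)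
      + (E + 1) * (2 * (E + 1 - 1) * log 2) := by
    nlinarith [k5, k6, kz]
  have e1 : (E + 1) * (log v - log a) - (E + 1 - 2) * (log a + E * log b - (E + 1) * log v)
      + (E + 1) * (2 * (E + 1 - 1) * log 2)
      = (E + 1) * (log v - log a - (E + 1 - 2) / (E + 1) * (log a + E * log b - (E + 1) * log v)
        + 2 * (E + 1 - 1) * log 2) := by
    field_simp
  rw [e1] at goal'
  exact le_of_mul_le_mul_left goal' hE1

theorem real_small {d : ℕ} (hd : 4 ≤ d) {a v b R z : ℝ} (ha : 0 < a) (hv : 0 < v)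
    (hb : 0 ≤ b) (hR0 : 0 < R) (hz0 : 0 < z)
    (hR : a * R ^ d ≤ v * R + b) (hzR : z ≤ R)
    (hX : a * b ^ (d - 1) / v ^ d < 3 * 2 ^ (d - 1)) :
    ((d : ℝ) - 1) * log z ≤ log v - log a + log 2 + log (3 * 2 ^ (d - 1)) := by
  obtain ⟨e, rfl⟩ : ∃ e, d = e + 1 := ⟨d - 1, by omega⟩
  simp only [Nat.add_sub_cancel] at *
  have he : 3 ≤ e := by omega
  have hE : (3 : ℝ) ≤ (e : ℝ) := by exact_mod_cast he
  have hvd : 0 < v ^ (e + 1) := by positivity
  have lz := log_le_log hz0 hzR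
  push_cast
  have hK : 0 ≤ log (3 * 2 ^ e : ℝ) := by
    apply log_nonneg
    have : (1 : ℝ) ≤ 2 ^ e := one_le_pow₀ (by norm_num)
    linarith
  have h2 : 0 ≤ log (2 : ℝ) := log_nonneg (by norm_num)
  have kz := mul_le_mul_of_nonneg_left lz (show (0 : ℝ) ≤ (e : ℝ) by linarith)
  rcases le_or_gt b (v * R) with h | h
  · have h1 : a * R ^ e ≤ 2 * v := by
      have : a * R ^ e * R ≤ 2 * v * R := by
        calc a * R ^ e * R = a * R ^ (e + 1) := by ring
          _ ≤ v * R + b := hR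
          _ ≤ 2 * v * R := by linarith
      exact le_of_mul_le_mul_right this hR0
    have l1 := log_le_log (by positivity) h1
    rw [log_mul ha.ne' (by positivity), log_pow, log_mul (by norm_num) hv.ne'] at l1
    nlinarith
  · have hb0 : 0 < b := by
      have : 0 < v * R := by positivity
      linarith
    have h1 : a * R ^ (e + 1) ≤ 2 * b := by linarith
    have l1 := log_le_log (by positivity) h1
    rw [log_mul ha.ne' (by positivity), log_pow, log_mul (by norm_num) hb0.ne'] at l1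
    have l2 := log_le_log (by positivity) hX.le
    rw [log_div (by positivity) (by positivity), log_mul ha.ne' (by positivity), log_pow,
      log_pow] at l2
    push_cast at *
    set E : ℝ := (e : ℝ)
    have k1 := mul_le_mul_of_nonneg_left l1 (show 0 ≤ E by positivity)
    have hE1 : 0 < E + 1 := by linarith
    have goal' : (E + 1) * ((E + 1 - 1) * log z)
        ≤ (E + 1) * (log v - log a + log 2 + log (3 * 2 ^ e)) := by
      nlinarith [k1, l2, kz]
    exact le_of_mul_le_mul_left goal' hE1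

namespace Sys

variable {d : ℕ} {A B : ℤ} {V : ℕ} {O : Finset ℤ} {φ : ℤ → ℤ}

/-- The quantity measuring the parameter at the real place. -/
noncomputable def XX (d : ℕ) (A B : ℤ) (V : ℕ) : ℝ :=
  |(A : ℝ)| * |(B : ℝ)| ^ (d - 1) / (V : ℝ) ^ d

/-- The estimates for the absolute values of the points. -/
theorem abs_bounds (h : Sys d A B V O φ) (hde : Even d) {u0 : ℤ}
    (hmax : ∀ u ∈ O, |u| ≤ |u0|) {u : ℤ} (hu : u ∈ O) :
    |(A : ℝ)| * |(u : ℝ)| ^ d ≤ V * |(u0 : ℝ)| + |(B : ℝ)| ∧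
      |(B : ℝ)| - V * |(u0 : ℝ)| ≤ |(A : ℝ)| * |(u : ℝ)| ^ d := by
  have h1 : |(φ u : ℝ)| ≤ |(u0 : ℝ)| := by
    have := hmax _ (h.maps u hu)
    exact_mod_cast this
  have h2 : (V : ℝ) * (φ u : ℝ) = A * (u : ℝ) ^ d + B := by
    exact_mod_cast h.eqn u hu
  have h3 : |(A : ℝ)| * |(u : ℝ)| ^ d = |(V : ℝ) * (φ u : ℝ) - B| := by
    rw [h2, add_sub_cancel_right, abs_mul, abs_pow]
  have hV : (0 : ℝ) ≤ V := Nat.cast_nonneg V
  have h4 : |(V : ℝ) * (φ u : ℝ)| ≤ V * |(u0 : ℝ)| := by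
    rw [abs_mul, abs_of_nonneg hV]
    exact mul_le_mul_of_nonneg_left h1 hV
  rw [h3]
  constructor
  · have := abs_sub (V * (φ u : ℝ)) (B : ℝ)
    linarith [abs_sub (V * (φ u : ℝ)) (B : ℝ), abs_add_le (V * (φ u : ℝ)) (-(B : ℝ)), abs_neg (B : ℝ),
      sub_eq_add_neg (V * (φ u : ℝ)) (B : ℝ)]
  · have := abs_sub_abs_le_abs_sub (B : ℝ) (V * (φ u : ℝ))
    rw [abs_sub_comm] at this
    linarith

theorem real_bound (h : Sys d A B V O φ) (hd : 4 ≤ d) (hde : Even d) (hA : A ≠ 0) (hV : 0 < V)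
    {u w : ℤ} (hu : u ∈ O) (hw : w ∈ O) (hne : u ≠ w) (hs : 0 < u * w) :
    ((d : ℝ) - 1) * log |((u - w : ℤ) : ℝ)|
      ≤ log V - log |(A : ℝ)| - (((d : ℝ) - 2) / d) * max 0 (log (XX d A B V)) + C1 d := by
  wlog hlt : |w| ≤ |u| generalizing u w with H
  · have := H hw hu hne.symm (by rwa [mul_comm]) (le_of_not_ge hlt)
    rwa [← abs_neg ((w - u : ℤ) : ℝ), ← Int.cast_neg, neg_sub] at this
  obtain ⟨u0, hu0, hmax⟩ := exists_max_image O (fun u => |u|) ⟨u, hu⟩
  have ha : 0 < |(A : ℝ)| := abs_pos.2 (by exact_mod_cast hA)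
  have hv : (0 : ℝ) < V := by exact_mod_cast hV
  have hun : u ≠ 0 := by rintro rfl; simp at hs
  have hwn : w ≠ 0 := by rintro rfl; simp at hs
  have hx0 : 0 < |(u : ℝ)| := abs_pos.2 (by exact_mod_cast hun)
  have hux : |(u : ℝ)| ≤ |(u0 : ℝ)| := by exact_mod_cast hmax u hu
  have hR0 : 0 < |(u0 : ℝ)| := hx0.trans_le hux
  have hz0 : 0 < |((u - w : ℤ) : ℝ)| := abs_pos.2 (by exact_mod_cast sub_ne_zero.2 hne)
  obtain ⟨hR, -⟩ := h.abs_bounds hde hmax hu0
  obtain ⟨-, hx⟩ := h.abs_bounds hde hmax hu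
  -- the distance of points with the same sign
  have hzabs : |((u - w : ℤ) : ℝ)| = |(u : ℝ)| - |(w : ℝ)| := by
    rcases lt_or_gt_of_ne hun with h1 | h1
    · have h2 : w < 0 := by
        by_contra hcon
        have : u * w ≤ 0 := mul_nonpos_of_nonpos_of_nonneg h1.le (not_lt.1 hcon)
        omega
      rw [abs_of_neg h1, abs_of_neg h2] at hlt
      have h3 : u - w ≤ 0 := by omega
      have e1 : |((u - w : ℤ) : ℝ)| = -((u - w : ℤ) : ℝ) :=
        abs_of_nonpos (by exact_mod_cast h3)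
      have e2 : |(u : ℝ)| = -(u : ℝ) := abs_of_neg (by exact_mod_cast h1)
      have e3 : |(w : ℝ)| = -(w : ℝ) := abs_of_neg (by exact_mod_cast h2)
      rw [e1, e2, e3]; push_cast; ring
    · have h2 : 0 < w := by
        by_contra hcon
        have : u * w ≤ 0 := mul_nonpos_of_nonneg_of_nonpos h1.le (not_lt.1 hcon)
        omega
      rw [abs_of_pos h1, abs_of_pos h2] at hlt
      have h3 : 0 ≤ u - w := by omega
      have e1 : |((u - w : ℤ) : ℝ)| = ((u - w : ℤ) : ℝ) :=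
        abs_of_nonneg (by exact_mod_cast h3)
      have e2 : |(u : ℝ)| = (u : ℝ) := abs_of_pos (by exact_mod_cast h1)
      have e3 : |(w : ℝ)| = (w : ℝ) := abs_of_pos (by exact_mod_cast h2)
      rw [e1, e2, e3]; push_cast; ring
  have hzR : |((u - w : ℤ) : ℝ)| ≤ |(u0 : ℝ)| := by
    rw [hzabs]
    linarith [abs_nonneg (w : ℝ)]
  have hwx : |(w : ℝ)| ≤ |(u : ℝ)| := by exact_mod_cast hlt
  have hz : |(A : ℝ)| * |(u : ℝ)| ^ (d - 1) * |((u - w : ℤ) : ℝ)| ≤ 2 * V * |(u0 : ℝ)| := by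
    have e1 : (V : ℝ) * ((φ u : ℝ) - (φ w : ℝ)) = A * ((u : ℝ) ^ d - (w : ℝ) ^ d) := by
      have h1 : (V : ℝ) * (φ u : ℝ) = A * (u : ℝ) ^ d + B := by exact_mod_cast h.eqn u hu
      have h2 : (V : ℝ) * (φ w : ℝ) = A * (w : ℝ) ^ d + B := by exact_mod_cast h.eqn w hw
      linear_combination h1 - h2
    have e2 : |(V : ℝ) * ((φ u : ℝ) - (φ w : ℝ))| ≤ 2 * V * |(u0 : ℝ)| := by
      rw [abs_mul, abs_of_pos hv]
      have h1 : |(φ u : ℝ)| ≤ |(u0 : ℝ)| := by exact_mod_cast hmax _ (h.maps u hu)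
      have h2 : |(φ w : ℝ)| ≤ |(u0 : ℝ)| := by exact_mod_cast hmax _ (h.maps w hw)
      have h3 : |(φ u : ℝ) - (φ w : ℝ)| ≤ 2 * |(u0 : ℝ)| := by
        have := abs_add_le (φ u : ℝ) (-(φ w : ℝ))
        rw [abs_neg, ← sub_eq_add_neg] at this
        linarith
      nlinarith
    rw [e1, abs_mul] at e2
    refine le_trans ?_ e2
    rw [mul_assoc]
    apply mul_le_mul_of_nonneg_left _ ha.le
    have e3 : (u : ℝ) ^ d = |(u : ℝ)| ^ d := (hde.pow_abs _).symm
    have e4 : (w : ℝ) ^ d = |(w : ℝ)| ^ d := (hde.pow_abs _).symm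
    rw [e3, e4, hzabs]
    refine le_trans ?_ (le_abs_self _)
    obtain ⟨e, rfl⟩ : ∃ e, d = e + 1 := ⟨d - 1, by omega⟩
    simp only [Nat.add_sub_cancel]
    have h5 : |(w : ℝ)| ^ e ≤ |(u : ℝ)| ^ e := pow_le_pow_left₀ (abs_nonneg _) hwx e
    have h6 := mul_le_mul_of_nonneg_right h5 (abs_nonneg (w : ℝ))
    rw [pow_succ, pow_succ]
    linarith
  have hlog2 : 0 ≤ log (2 : ℝ) := log_nonneg (by norm_num)
  have hK : 0 ≤ log (3 * 2 ^ (d - 1) : ℝ) := by
    apply log_nonneg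
    have : (1 : ℝ) ≤ 2 ^ (d - 1) := one_le_pow₀ (by norm_num)
    linarith
  have hd' : (4 : ℝ) ≤ d := by exact_mod_cast hd
  have hfrac0 : 0 ≤ ((d : ℝ) - 2) / d := by
    apply div_nonneg <;> linarith
  have hfrac1 : ((d : ℝ) - 2) / d ≤ 1 := by
    rw [div_le_one (by linarith)]; linarith
  rcases le_or_gt (3 * 2 ^ (d - 1)) (XX d A B V) with hX | hX
  · have := real_large hd ha hv (abs_nonneg (B : ℝ)) hR0 hx0 hz0 hR hx hz hX
    have h1 : (1 : ℝ) ≤ XX d A B V := by
      have : (1 : ℝ) ≤ 2 ^ (d - 1) := one_le_pow₀ (by norm_num)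
      linarith
    rw [max_eq_right (log_nonneg h1)]
    refine this.trans ?_
    unfold XX C1
    nlinarith
  · have := real_small hd ha hv (abs_nonneg (B : ℝ)) hR0 hz0 hR hzR hX
    have h1 : max 0 (log (XX d A B V)) ≤ log (3 * 2 ^ (d - 1) : ℝ) := by
      apply max_le hK
      rcases (show (0 : ℝ) ≤ XX d A B V by unfold XX; positivity).eq_or_lt with h0 | h0
      · rw [← h0, log_zero]; exact hK
      · exact log_le_log h0 hX.le
    have h2 : (((d : ℝ) - 2) / d) * max 0 (log (XX d A B V)) ≤ log (3 * 2 ^ (d - 1) : ℝ) := by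
      have h3 : 0 ≤ max 0 (log (XX d A B V)) := le_max_left _ _
      nlinarith
    unfold C1
    nlinarith

end Sys

end Pool.Agent.T6.H62.UB
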