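import Pool.Agent.T6.H62.UB.Bound

/-!
# From rational preperiodic points to finite invariant sets of integers
-/

set_option autoImplicit false

namespace Pool.Agent.T6.H62.UB

open Finset

/-- `x` is preperiodic for `f`: its forward orbit runs into a cycle. -/
def IsPreperiodic (f : ℚ → ℚ) (x : ℚ) : Prop := ∃ m n : ℕ, m < n ∧ f^[m] x = f^[n] x

theorem IsPreperiodic.map {f : ℚ → ℚ} {x : ℚ} (hx : IsPreperiodic f x) :
    IsPreperiodic f (f x) := by
  obtain ⟨m, n, hmn, heq⟩ := hx
  refine ⟨m, n, hmn, ?_⟩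
  rw [← Function.iterate_succ_apply, ← Function.iterate_succ_apply,
    Function.iterate_succ_apply', Function.iterate_succ_apply', heq]

/-- a finite set of preperiodic points lies in a finite invariant set of such points -/
theorem exists_invariant (f : ℚ → ℚ) (T : Finset ℚ) (hT : ∀ x ∈ T, IsPreperiodic f x) :
    ∃ O : Finset ℚ, T ⊆ O ∧ (∀ x ∈ O, f x ∈ O) ∧ ∀ x ∈ O, IsPreperiodic f x := by
  classical
  choose! m n hmn heq using hT
  refine ⟨T.biUnion fun x => (range (n x)).image fun k => f^[k] x, ?_, ?_, ?_⟩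
  · intro x hx
    rw [mem_biUnion]
    exact ⟨x, hx, mem_image.2 ⟨0, mem_range.2 (by have := hmn x hx; omega), rfl⟩⟩
  · intro y hy
    rw [mem_biUnion] at hy ⊢
    obtain ⟨x, hx, hy⟩ := hy
    rw [mem_image] at hy
    obtain ⟨k, hk, rfl⟩ := hy
    rw [mem_range] at hk
    refine ⟨x, hx, ?_⟩
    rw [mem_image]
    rcases Nat.lt_or_ge (k + 1) (n x) with h | h
    · exact ⟨k + 1, mem_range.2 h, by rw [Function.iterate_succ_apply']⟩
    · refine ⟨m x, mem_range.2 (hmn x hx), ?_⟩
      have : n x = k + 1 := by omega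
      rw [heq x hx, this, Function.iterate_succ_apply']
  · intro y hy
    rw [mem_biUnion] at hy
    obtain ⟨x, hx, hy⟩ := hy
    rw [mem_image] at hy
    obtain ⟨k, hk, rfl⟩ := hy
    refine ⟨m x, n x, hmn x hx, ?_⟩
    rw [← Function.iterate_add_apply, ← Function.iterate_add_apply, Nat.add_comm,
      Function.iterate_add_apply, heq x hx, ← Function.iterate_add_apply, Nat.add_comm]

/-- A point whose valuation decreases along a set closed under the map is not preperiodic. -/
theorem not_preperiodic (f : ℚ → ℚ) (p : ℕ) (Q : ℚ → Prop)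
    (hQ : ∀ x, Q x → Q (f x) ∧ padicValRat p (f x) < padicValRat p x) {x : ℚ} (hx : Q x) :
    ¬ IsPreperiodic f x := by
  rintro ⟨m, n, hmn, heq⟩
  have h1 : ∀ k, Q (f^[k] x) := by
    intro k
    induction k with
    | zero => exact hx
    | succ k ih => rw [Function.iterate_succ_apply']; exact (hQ _ ih).1
  have h2 : ∀ k, padicValRat p (f^[m + (k + 1)] x) < padicValRat p (f^[m] x) := by
    intro k
    induction k with
    | zero =>
      rw [Nat.zero_add, Function.iterate_succ_apply']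
      exact (hQ _ (h1 m)).2
    | succ k ih =>
      rw [← Nat.add_assoc, Function.iterate_succ_apply']
      exact ((hQ _ (h1 _)).2).trans ih
  have h3 := h2 (n - m - 1)
  rw [show m + (n - m - 1 + 1) = n by omega, ← heq] at h3
  exact lt_irrefl _ h3

theorem padicValRat_neg_of_dvd_den {p : ℕ} (hp : p.Prime) {x : ℚ} (h : p ∣ x.den) :
    padicValRat p x = -(padicValNat p x.den : ℤ) ∧ 1 ≤ padicValNat p x.den := by
  have := Fact.mk hp
  have h1 : ¬ (p : ℤ) ∣ x.num := by
    intro h2
    have h3 : p ∣ x.num.natAbs := Int.natCast_dvd.1 h2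
    have := Nat.dvd_gcd h3 h
    rw [x.reduced] at this
    exact hp.one_lt.ne' (Nat.dvd_one.1 this)
  have h2 : padicValInt p x.num = 0 := padicValInt.eq_zero_of_not_dvd h1
  refine ⟨by rw [padicValRat, h2]; simp, ?_⟩
  exact one_le_padicValNat_of_dvd x.den_nz h

theorem padicValRat_nonneg_of_not_dvd_den {p : ℕ} {x : ℚ} (h : ¬ p ∣ x.den) :
    0 ≤ padicValRat p x := by
  rw [padicValRat, padicValNat.eq_zero_of_not_dvd h]
  simp

/-- The valuation of `a x ^ d + b`. -/
theorem val_dom {p : ℕ} [Fact p.Prime] {s t : ℚ} (hs : s ≠ 0)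
    (h : t = 0 ∨ padicValRat p s < padicValRat p t) : padicValRat p (s + t) = padicValRat p s := by
  rcases h with h | h
  · rw [h, add_zero]
  · by_cases ht : t = 0
    · rw [ht, add_zero]
    · have hst : s + t ≠ 0 := by
        intro h0
        have : s = -t := by linear_combination h0
        rw [this, padicValRat.neg] at h
        exact lt_irrefl _ h
      exact padicValRat.add_eq_of_lt hst hs ht h

theorem int_of_preperiodic {d : ℕ} (hd : 2 ≤ d) {A B : ℤ} {V : ℕ} (hA : A ≠ 0) (hV : 0 < V)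
    (hA' : ∀ p : ℕ, p.Prime → ¬ (p : ℤ) ^ (d - 1) ∣ A) {x : ℚ}
    (hx : IsPreperiodic (fun x : ℚ => (A * x ^ d + B) / V) x) : x.den = 1 := by
  by_contra hden
  obtain ⟨p, hp, hpd⟩ := Nat.exists_prime_and_dvd hden
  have := Fact.mk hp
  have hneg : padicValRat p x < 0 := by
    obtain ⟨h1, h2⟩ := padicValRat_neg_of_dvd_den hp hpd
    omega
  refine not_preperiodic (fun x : ℚ => (A * x ^ d + B) / V) p (fun x => padicValRat p x < 0) ?_
    hneg hx
  intro y hy
  have hy0 : y ≠ 0 := by
    rintro rfl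
    simp at hy
  have hAQ : (A : ℚ) ≠ 0 := by exact_mod_cast hA
  have hVQ : (V : ℚ) ≠ 0 := by exact_mod_cast hV.ne'
  have hs0 : (A : ℚ) * y ^ d ≠ 0 := mul_ne_zero hAQ (pow_ne_zero _ hy0)
  have hvA : padicValRat p (A : ℚ) ≤ (d : ℤ) - 2 := by
    rw [padicValRat.of_int]
    have h1 : ¬ (d - 1) ≤ padicValInt p A := by
      intro h2
      exact hA' p hp ((padicValInt_dvd_iff (d - 1) A).2 (Or.inr h2))
    push Not at h1
    omega
  have hvs : padicValRat p ((A : ℚ) * y ^ d) = padicValRat p (A : ℚ) + d * padicValRat p y := by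
    rw [padicValRat.mul hAQ (pow_ne_zero _ hy0), padicValRat.pow]
  have hd' : (2 : ℤ) ≤ d := by exact_mod_cast hd
  have hvs_neg : padicValRat p ((A : ℚ) * y ^ d) < padicValRat p y := by
    rw [hvs]
    nlinarith
  have hB : (B : ℚ) = 0 ∨ padicValRat p ((A : ℚ) * y ^ d) < padicValRat p (B : ℚ) := by
    right
    have : 0 ≤ padicValRat p (B : ℚ) := by
      rw [padicValRat.of_int]; positivity
    linarith
  have h1 := val_dom hs0 hB
  have hsum0 : (A : ℚ) * y ^ d + B ≠ 0 := by
    intro h0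
    rw [h0, padicValRat.zero] at h1
    linarith
  have h2 : padicValRat p (((A : ℚ) * y ^ d + B) / V)
      = padicValRat p ((A : ℚ) * y ^ d) - padicValRat p (V : ℚ) := by
    rw [padicValRat.div hsum0 hVQ, h1]
  have h3 : 0 ≤ padicValRat p (V : ℚ) := by
    rw [padicValRat.of_nat]; positivity
  constructor
  · show padicValRat p (((A : ℚ) * y ^ d + B) / V) < 0
    rw [h2]; linarith
  · show padicValRat p (((A : ℚ) * y ^ d + B) / V) < padicValRat p y
    rw [h2]; linarith

/-- The reduction for `(A x ^ d + B) / V`. -/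
theorem exists_sys {d : ℕ} (hd : 2 ≤ d) {A B : ℤ} {V : ℕ} (hA : A ≠ 0) (hV : 0 < V)
    (hAV : IsCoprime A (V : ℤ)) (hBV : IsCoprime B (V : ℤ))
    (hA' : ∀ p : ℕ, p.Prime → ¬ (p : ℤ) ^ (d - 1) ∣ A) (T : Finset ℚ)
    (hT : ∀ x ∈ T, IsPreperiodic (fun x : ℚ => (A * x ^ d + B) / V) x) :
    ∃ (O : Finset ℤ) (φ : ℤ → ℤ), Sys d A B V O φ ∧ (∀ x ∈ T, ∃ u ∈ O, (u : ℚ) = x) ∧
      T.card ≤ O.card ∧ ∀ u ∈ O, ∃ m n : ℕ, m < n ∧ φ^[m] u = φ^[n] u := by
  classical
  obtain ⟨OQ, hTO, hmap, hpre⟩ := exists_invariant _ T hT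
  set f : ℚ → ℚ := fun x : ℚ => (A * x ^ d + B) / V with hf
  have hint : ∀ x ∈ OQ, ((x.num : ℤ) : ℚ) = x := by
    intro x hx
    exact Rat.coe_int_num_of_den_eq_one (int_of_preperiodic hd hA hV hA' (hpre x hx))
  have hVQ : (V : ℚ) ≠ 0 := by exact_mod_cast hV.ne'
  set O : Finset ℤ := OQ.image Rat.num with hO
  set φ : ℤ → ℤ := fun u => (f u).num with hφ
  have hmem : ∀ u ∈ O, (u : ℚ) ∈ OQ := by
    intro u hu
    obtain ⟨x, hx, rfl⟩ := mem_image.1 hu
    rw [hint x hx]; exact hx
  have hφf : ∀ u ∈ O, ((φ u : ℤ) : ℚ) = f u := fun u hu => hint _ (hmap _ (hmem u hu))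
  have hmaps : ∀ u ∈ O, φ u ∈ O := fun u hu => mem_image_of_mem _ (hmap _ (hmem u hu))
  refine ⟨O, φ, ⟨hmaps, ?_, hAV, hBV⟩, ?_, ?_, ?_⟩
  · intro u hu
    have h1 := hφf u hu
    simp only [hf] at h1
    rw [eq_div_iff hVQ] at h1
    have h2 : ((V : ℚ) * (φ u : ℚ)) = A * (u : ℚ) ^ d + B := by rw [mul_comm]; exact h1
    exact_mod_cast h2
  · intro x hx
    exact ⟨x.num, mem_image_of_mem _ (hTO hx), hint x (hTO hx)⟩
  · refine (card_le_card hTO).trans ?_
    rw [hO, card_image_of_injOn]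
    intro x hx y hy hxy
    rw [← hint x hx, ← hint y hy, hxy]
  · intro u hu
    obtain ⟨m, n, hmn, heq⟩ := hpre _ (hmem u hu)
    refine ⟨m, n, hmn, ?_⟩
    have hit : ∀ k, φ^[k] u ∈ O ∧ ((φ^[k] u : ℤ) : ℚ) = f^[k] u := by
      intro k
      induction k with
      | zero => exact ⟨hu, rfl⟩
      | succ k ih =>
        rw [Function.iterate_succ_apply', Function.iterate_succ_apply', ← ih.2]
        exact ⟨hmaps _ ih.1, hφf _ ih.1⟩
    have h1 := (hit m).2
    have h2 := (hit n).2
    rw [heq, ← h2] at h1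
    exact_mod_cast h1

/-- The denominators of preperiodic points of `x ^ d + c`. -/
theorem den_eq {d : ℕ} (hd : 2 ≤ d) {c x : ℚ}
    (hx : IsPreperiodic (fun x : ℚ => x ^ d + c) x) : c.den = x.den ^ d := by
  have hd' : (2 : ℤ) ≤ d := by exact_mod_cast hd
  -- the escape
  have esc : ∀ (p : ℕ), p.Prime → ∀ y : ℚ, padicValRat p y < 0 →
      (c = 0 ∨ d * padicValRat p y < padicValRat p c) →
      ¬ IsPreperiodic (fun x : ℚ => x ^ d + c) y := by
    intro p hp y hy hyc
    have := Fact.mk hp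
    refine not_preperiodic _ p
      (fun y => padicValRat p y < 0 ∧ (c = 0 ∨ d * padicValRat p y < padicValRat p c)) ?_ ⟨hy, hyc⟩
    rintro y ⟨hy, hyc⟩
    have hy0 : y ≠ 0 := by
      rintro rfl
      simp at hy
    have h1 : padicValRat p (y ^ d) = d * padicValRat p y := padicValRat.pow _
    have h2 : padicValRat p (y ^ d + c) = d * padicValRat p y := by
      rw [val_dom (pow_ne_zero _ hy0) (by rw [h1]; exact hyc), h1]
    refine ⟨⟨?_, ?_⟩, ?_⟩
    · show padicValRat p (y ^ d + c) < 0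
      rw [h2]; nlinarith
    · show c = 0 ∨ d * padicValRat p (y ^ d + c) < padicValRat p c
      rw [h2]
      rcases hyc with h | h
      · exact Or.inl h
      · right
        have h5 : (d : ℤ) * padicValRat p y < 0 := by nlinarith
        nlinarith [mul_le_mul_of_nonpos_right hd' h5.le]
    · show padicValRat p (y ^ d + c) < padicValRat p y
      rw [h2]; nlinarith
  have hfx : IsPreperiodic (fun x : ℚ => x ^ d + c) (x ^ d + c) :=
    IsPreperiodic.map hx
  apply Nat.eq_of_factorization_eq c.den_nz (pow_ne_zero _ x.den_nz)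
  intro p
  by_cases hp : p.Prime
  swap
  · rw [Nat.factorization_eq_zero_of_not_prime _ hp, Nat.factorization_eq_zero_of_not_prime _ hp]
  have := Fact.mk hp
  have hfp : (x.den ^ d).factorization p = d * x.den.factorization p := by
    rw [Nat.factorization_pow]; simp
  rw [hfp, Nat.factorization_def _ hp, Nat.factorization_def _ hp]
  by_cases hc : p ∣ c.den
  · obtain ⟨hc1, hc2⟩ := padicValRat_neg_of_dvd_den hp hc
    have hc0 : c ≠ 0 := by
      rintro rfl
      exact hp.one_lt.ne' (Nat.dvd_one.1 (by simpa using hc))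
    have hcneg : padicValRat p c < 0 := by omega
    have hxd : d * padicValRat p x = padicValRat p c := by
      rcases lt_trichotomy ((d : ℤ) * padicValRat p x) (padicValRat p c) with h | h | h
      · exfalso
        refine esc p hp x ?_ (Or.inr h) hx
        nlinarith
      · exact h
      · exfalso
        have h2 : padicValRat p (x ^ d + c) = padicValRat p c := by
          rw [add_comm]
          by_cases hx0 : x = 0
          · rw [hx0, zero_pow (by omega), add_zero]
          · apply val_dom hc0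
            right
            rw [padicValRat.pow]
            exact h
        refine esc p hp _ (by rw [h2]; exact hcneg) (Or.inr ?_) hfx
        rw [h2]
        nlinarith
    have hxneg : padicValRat p x < 0 := by nlinarith
    have hxden : p ∣ x.den := by
      by_contra hcon
      have := padicValRat_nonneg_of_not_dvd_den (p := p) hcon
      omega
    obtain ⟨hx1, hx2⟩ := padicValRat_neg_of_dvd_den hp hxden
    rw [hx1, hc1] at hxd
    have h5 : ((d * padicValNat p x.den : ℕ) : ℤ) = (padicValNat p c.den : ℤ) := by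
      rw [Nat.cast_mul]; linarith
    exact (Int.ofNat_inj.1 h5).symm
  · rw [padicValNat.eq_zero_of_not_dvd hc]
    by_cases hxden : p ∣ x.den
    · exfalso
      obtain ⟨hx1, hx2⟩ := padicValRat_neg_of_dvd_den hp hxden
      have hcn := padicValRat_nonneg_of_not_dvd_den (p := p) hc
      refine esc p hp x (by omega) (Or.inr ?_) hx
      have h6 : padicValRat p x ≤ -1 := by omega
      nlinarith
    · rw [padicValNat.eq_zero_of_not_dvd hxden, mul_zero]

/-- The reduction for `x ^ d + c`. -/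
theorem exists_sys_c {d : ℕ} (hd : 2 ≤ d) {c : ℚ} (T : Finset ℚ) (hT0 : T.Nonempty)
    (hT : ∀ x ∈ T, IsPreperiodic (fun x : ℚ => x ^ d + c) x) :
    ∃ (v : ℕ) (b : ℤ) (O : Finset ℤ) (φ : ℤ → ℤ), 0 < v ∧ c.den = v ^ d ∧ c.num = b ∧
      Sys d 1 b (v ^ (d - 1)) O φ ∧
      T.card ≤ O.card ∧ ∀ u ∈ O, ∃ m n : ℕ, m < n ∧ φ^[m] u = φ^[n] u := by
  classical
  obtain ⟨x0, hx0⟩ := hT0
  set v := x0.den with hv
  have hv0 : 0 < v := x0.den_pos
  have hcd : c.den = v ^ d := den_eq hd (hT x0 hx0)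
  have hvQ : (v : ℚ) ≠ 0 := by exact_mod_cast hv0.ne'
  have hcQ : (c.num : ℚ) = c * (v : ℚ) ^ d := by
    have h1 : (c.num : ℚ) / c.den = c := Rat.num_div_den c
    rw [hcd] at h1
    push_cast at h1
    rw [div_eq_iff (pow_ne_zero _ hvQ)] at h1
    exact h1
  have hcop : IsCoprime c.num ((v ^ (d - 1) : ℕ) : ℤ) := by
    have h1 : IsCoprime c.num (c.den : ℤ) := by
      rw [Int.isCoprime_iff_gcd_eq_one]
      exact c.reduced
    rw [hcd] at h1
    push_cast at h1 ⊢
    exact (IsCoprime.pow_right ((IsCoprime.pow_right_iff (by omega)).1 h1))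
  have hconj : ∀ (k : ℕ) (x : ℚ), (fun x : ℚ => (((1 : ℤ) : ℚ) * x ^ d + (c.num : ℚ)) /
      ((v ^ (d - 1) : ℕ) : ℚ))^[k] (v * x) = v * (fun x : ℚ => x ^ d + c)^[k] x := by
    intro k
    induction k with
    | zero => intro x; rfl
    | succ k ih =>
      intro x
      rw [Function.iterate_succ_apply, Function.iterate_succ_apply, ← ih]
      congr 1
      push_cast
      rw [hcQ, div_eq_iff (pow_ne_zero _ hvQ)]
      obtain ⟨e, rfl⟩ : ∃ e, d = e + 1 := ⟨d - 1, by omega⟩
      simp only [Nat.add_sub_cancel]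
      ring
  obtain ⟨O, φ, h1, h2, h3, h4⟩ := exists_sys hd (A := 1) (B := c.num) (V := v ^ (d - 1))
    one_ne_zero (by positivity) isCoprime_one_left hcop (by
      intro p hp hdvd
      have h5 : (p : ℤ) ∣ 1 := (dvd_pow_self _ (by omega)).trans hdvd
      have := Int.le_of_dvd one_pos h5
      have := hp.one_lt
      omega) (T.image fun x => v * x) (by
      intro y hy
      obtain ⟨x, hx, rfl⟩ := mem_image.1 hy
      obtain ⟨m, n, hmn, heq⟩ := hT x hx
      exact ⟨m, n, hmn, by rw [hconj, hconj, heq]⟩)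
  refine ⟨v, c.num, O, φ, hv0, hcd, rfl, h1, ?_, h4⟩
  rw [card_image_of_injective _ (mul_right_injective₀ hvQ)] at h3
  exact h3

end Pool.Agent.T6.H62.UB
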