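import Pool.Agent.T6.H62.UB.Final

/-!
# MP_c076ed_nt: unicritical polynomials, where only primes `p ≡ 1` modulo `d` count

Let `d ≥ 4` be even.  For `f(x) = x ^ d + c` over `ℚ` we bound the number of rational preperiodic
points by `C(d) M log (M + 1)` when the part of the denominator of `c` made of the primes `p ≡ 1`
modulo `d` is at most the `M`-th power of the product of the other part of the denominator, the
largest prime power dividing the denominator, and `max(1, |c|)`.  So there is a uniform bound for
all such `c`, for each `M`, and in general the bound `C(d) (s + 1) log (s + 2)` where `s` counts only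
the primes `p ≡ 1` modulo `d` in the denominator.  The same is proved for all unicritical polynomials in
the normal form `(A x ^ d + B) / V`, where in addition the twist `|A|` helps.

Proof.  At a prime `p ≢ 1` modulo `d` at most `d / 2` of the `d` branches of the inverse of `f`
are defined over `ℚ_p`, at the real place at most two, and the points in one branch of the
largest prime power are close to each other; so the sum of the logarithms of all the differences of
many points is too negative, by the product formula, unless the part at the split primes, where the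
points may be equidistributed, is large.
-/

set_option autoImplicit false

namespace Pool.Agent.T6.H62.UB.SplitPrimes

open Pool.Agent.T6.H62.UB

theorem result (d : ℕ) (hd : 4 ≤ d) (hde : Even d) : ∃ C : ℝ, 0 < C ∧
    -- `x ^ d + c`, in terms of the sizes
    (∀ (c : ℚ) (M : ℝ), 1 ≤ M →
      (splitPart d c.den : ℝ) ≤
        (nonsplitPart d c.den * largestPrimePower c.den * max 1 |(c : ℝ)|) ^ M →
      ∀ T : Finset ℚ, (∀ x ∈ T, IsPreperiodic (fun x : ℚ => x ^ d + c) x) →
        (T.card : ℝ) ≤ C * (M * Real.log (M + 1))) ∧
    -- `x ^ d + c`, in terms of the number of primes `p ≡ 1` modulo `d` in the denominator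
    (∀ (c : ℚ) (T : Finset ℚ), (∀ x ∈ T, IsPreperiodic (fun x : ℚ => x ^ d + c) x) →
        (T.card : ℝ) ≤ C * (((c.den.primeFactors.filter (· ≡ 1 [MOD d])).card + 1) *
          Real.log ((c.den.primeFactors.filter (· ≡ 1 [MOD d])).card + 2))) ∧
    -- `(A x ^ d + B) / V`
    (∀ (A B : ℤ) (V : ℕ), A ≠ 0 → 0 < V → IsCoprime A (V : ℤ) → IsCoprime B (V : ℤ) →
      (∀ p : ℕ, p.Prime → ¬ (p : ℤ) ^ (d - 1) ∣ A) → ∀ M : ℝ, 1 ≤ M →
      (splitPart d V : ℝ) ≤ (|(A : ℝ)| * nonsplitPart d V * largestPrimePower V *
        max 1 (|(A : ℝ)| * |(B : ℝ)| ^ (d - 1) / (V : ℝ) ^ d)) ^ M →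
      ∀ T : Finset ℚ, (∀ x ∈ T, IsPreperiodic (fun x : ℚ => (A * x ^ d + B) / V) x) →
        (T.card : ℝ) ≤ C * (M * Real.log (M + 1))) := by
  obtain ⟨C, hC, hbound⟩ := core_bound hd hde
  exact ⟨C, hC, fun c M hM hsp T hT => bound_c_aux hd hC hbound c hM hsp T hT,
    fun c T hT => bound_s_aux hd hC hbound c T hT,
    fun A B V hA hV hAV hBV hA' M hM hsp T hT =>
      bound_ABV_aux hd hbound A B V hA hV hAV hBV hA' hM hsp T hT⟩

end Pool.Agent.T6.H62.UB.SplitPrimes
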